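import Mathlib
import Pool.Agent.Lib.MP_0a1b52_lc_SLICE.Low

/-!
The patterns of the NOT gates of a circuit, in lexicographic order.
-/

namespace Pool.Agent.SliceCircuits

open Finset Pool.Agent

variable {V : Type} {s : ℕ}

open Classical in
/-- The pattern of the NOT gates: the coordinate of a NOT gate is true if the gate outputs
false. -/
noncomputable def pat (D : Circuit V s) (val : Fin s → Prop) : Lex (Fin s → Bool) :=
  toLex fun i => decide ((∃ w, D.gate i = Gate.not w) ∧ ¬ val i)

open Classical in
/-- The possible patterns. -/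
noncomputable def pats (D : Circuit V s) : Finset (Lex (Fin s → Bool)) :=
  (univ.filter fun i => ∃ w, D.gate i = Gate.not w).powerset.image
    fun T => toLex fun i => decide (i ∈ T)

theorem pat_eq_true {D : Circuit V s} {val : Fin s → Prop} {i : Fin s} :
    ofLex (pat D val) i = true ↔ (∃ w, D.gate i = Gate.not w) ∧ ¬ val i := by
  classical
  unfold pat
  simp

theorem pat_mem (D : Circuit V s) (val : Fin s → Prop) : pat D val ∈ pats D := by
  classical
  unfold pats
  rw [mem_image]
  refine ⟨univ.filter fun i => (∃ w, D.gate i = Gate.not w) ∧ ¬ val i, ?_, ?_⟩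
  · rw [mem_powerset]
    intro i hi
    rw [mem_filter] at hi ⊢
    exact ⟨hi.1, hi.2.1⟩
  · unfold pat
    congr 1
    funext i
    rw [decide_eq_decide]
    simp

theorem not_of_mem_pats {D : Circuit V s} {q : Lex (Fin s → Bool)} (hq : q ∈ pats D) {i : Fin s}
    (h : ofLex q i = true) : ∃ w, D.gate i = Gate.not w := by
  classical
  unfold pats at hq
  obtain ⟨T, hT, rfl⟩ := mem_image.1 hq
  have h1 : i ∈ T := by simpa using h
  exact (mem_filter.1 (mem_powerset.1 hT h1)).2

theorem card_pats_le (D : Circuit V s) : (pats D).card ≤ 2 ^ D.numNot := by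
  classical
  unfold pats
  refine card_image_le.trans ?_
  rw [card_powerset]
  unfold Circuit.numNot
  refine Nat.pow_le_pow_right (by norm_num) (card_le_card ?_)
  intro i hi
  rw [mem_filter] at hi ⊢
  exact hi

/-- Monotonicity of the gates with numbers below `i`, when the NOT gates with numbers below `i` do
not decrease. -/
theorem frozen_le {D : Circuit V s} {b : Fin s → Prop} {x y : V → Prop} {v val : Fin s → Prop}
    (hv : D.toMod.IsFrozen b x v) (hval : D.IsEval y val) (hxy : ∀ u, x u → y u) (i : ℕ)
    (h : ∀ j : Fin s, j.val < i → (∃ w, D.gate j = Gate.not w) → b j → val j) :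
    ∀ j : Fin s, j.val < i → v j → val j := by
  intro j
  induction j using WellFoundedLT.induction with
  | ind j ih =>
    intro hj
    have hw : ∀ w ∈ (D.gate j).wires, Sum.elim x v w → Sum.elim y val w := by
      intro w hw
      cases w with
      | inl u => exact hxy u
      | inr k =>
        have hk := D.acyclic j k hw
        exact ih k hk (lt_trans (Fin.lt_def.1 hk) hj)
    have h1 := hv j
    have h2 := hval j
    rw [show D.toMod.gate j = (D.gate j).toMod from rfl] at h1
    rw [h1, h2]
    cases hg : D.gate j with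
    | and J =>
      rw [hg] at hw
      exact fun h3 w hw' => hw w hw' (h3 w hw')
    | or J =>
      rw [hg] at hw
      exact fun ⟨w, hw', h3⟩ => ⟨w, hw', hw w hw' h3⟩
    | not w =>
      intro h3
      have h4 : val j := h j hj ⟨w, hg⟩ h3
      rw [h2, hg] at h4
      exact h4

/-- A true evaluation is frozen. -/
theorem isFrozen_of_isEval {D : Circuit V s} {b : Fin s → Prop} {x : V → Prop}
    {val : Fin s → Prop} (h : D.IsEval x val)
    (hb : ∀ j : Fin s, (∃ w, D.gate j = Gate.not w) → (val j ↔ b j)) :
    D.toMod.IsFrozen b x val := by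
  intro i
  have hi := h i
  rw [show D.toMod.gate i = (D.gate i).toMod from rfl]
  cases hg : D.gate i with
  | and J => rw [hg] at hi; exact hi
  | or J => rw [hg] at hi; exact hi
  | not w => exact hb i ⟨w, hg⟩

/-- The frozen values given by a pattern. -/
def frz (q : Lex (Fin s → Bool)) : Fin s → Prop := fun i => ofLex q i = false

theorem frz_pat {D : Circuit V s} {val : Fin s → Prop} {j : Fin s}
    (hj : ∃ w, D.gate j = Gate.not w) : frz (pat D val) j ↔ val j := by
  unfold frz
  rw [← Bool.not_eq_true, pat_eq_true]
  tauto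

theorem lex_lt_iff {q q' : Lex (Fin s → Bool)} : q < q' ↔
    ∃ i, (∀ j < i, ofLex q j = ofLex q' j) ∧ ofLex q i = false ∧ ofLex q' i = true := by
  have h1 : q < q' ↔ ∃ i, (∀ j < i, ofLex q j = ofLex q' j) ∧ ofLex q i < ofLex q' i := Iff.rfl
  rw [h1]
  refine exists_congr fun i => and_congr_right fun _ => ?_
  cases ofLex q i <;> cases ofLex q' i <;> simp

/-- The pattern grows when the assignment grows. -/
theorem pat_mono {D : Circuit V s} {x y : V → Prop} {val val' : Fin s → Prop}
    (h : D.IsEval x val) (h' : D.IsEval y val') (hxy : ∀ u, x u → y u) :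
    pat D val ≤ pat D val' := by
  by_contra hcon
  obtain ⟨i, hi, h1, h2⟩ := lex_lt_iff.1 (not_le.1 hcon)
  obtain ⟨⟨w, hw⟩, h3⟩ := pat_eq_true.1 h2
  have h4 : val' i := by
    by_contra h5
    have := pat_eq_true.2 ⟨⟨w, hw⟩, h5⟩
    rw [this] at h1
    exact absurd h1 (by simp)
  have hfr : D.toMod.IsFrozen (frz (pat D val)) x val :=
    isFrozen_of_isEval h (fun j hj => (frz_pat hj).symm)
  have hmono := frozen_le hfr h' hxy i.val (by
    intro j hj hn hb
    have h6 := hi j hj
    unfold frz at hb
    rw [← h6] at hb
    exact (frz_pat hn).1 hb)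
  rw [h i, hw] at h3
  rw [h' i, hw] at h4
  have h5 : Sum.elim x val w := not_not.1 h3
  refine h4 ?_
  cases w with
  | inl u => exact hxy u h5
  | inr k =>
    refine hmono k ?_ h5
    exact D.acyclic i k (by rw [hw]; exact mem_singleton_self _)

/-- The number of patterns above a given one. -/
noncomputable def above (D : Circuit V s) (q : Lex (Fin s → Bool)) : ℕ := by
  classical exact ((pats D).filter fun q' => q < q').card

theorem above_lt (D : Circuit V s) (val : Fin s → Prop) : above D (pat D val) < 2 ^ D.numNot := by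
  classical
  refine lt_of_lt_of_le ?_ (card_pats_le D)
  unfold above
  refine card_lt_card ?_
  rw [ssubset_iff_of_subset (filter_subset _ _)]
  refine ⟨pat D val, pat_mem D val, ?_⟩
  rw [mem_filter]
  exact fun h => lt_irrefl _ h.2

theorem above_succ (D : Circuit V s) {q : Lex (Fin s → Bool)} {val : Fin s → Prop}
    (h : q < pat D val) : above D (pat D val) + 1 ≤ above D q := by
  classical
  unfold above
  refine Nat.succ_le_of_lt (card_lt_card ?_)
  have hsub : ((pats D).filter fun q' => pat D val < q') ⊆
      ((pats D).filter fun q' => q < q') := by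
    intro q' hq'
    rw [mem_filter] at hq' ⊢
    exact ⟨hq'.1, h.trans hq'.2⟩
  rw [ssubset_iff_of_subset hsub]
  refine ⟨pat D val, mem_filter.2 ⟨pat_mem D val, h⟩, ?_⟩
  rw [mem_filter]
  exact fun h => lt_irrefl _ h.2

end Pool.Agent.SliceCircuits
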