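import Mathlib
import Pool.Agent.Lib.MP_0a1b52_lc_WIN.Lex

/-!
One region: if a small circuit with few NOT gates accepts the positive tests, then it rejects an
assignment above a suitable negative test only with a larger pattern of the NOT gates.
-/

namespace Pool.Agent.SliceCircuits

open Finset Pool.Agent Pool.Agent.CliqueModules Pool.Agent.MP0a1b52

set_option linter.unusedSectionVars false

variable {V : Type} {s : ℕ} {F A : Type} [Field F] [Fintype F] [DecidableEq F]
  [Fintype A] [DecidableEq A] {d : ℕ} (φ : F → A)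

open Classical in
theorem lex_step (D : SliceCircuits.Circuit V s) (hd : 2 ≤ d) (X : Set (F × A) → V → Prop)
    (hXty : ∀ v, (∃ ι, ∀ z, X z v ↔ ι ∈ z) ∨ (∃ p : Prop, ∀ z, X z v ↔ p))
    (Bd : ℕ) (hB : ∀ α, (univ.filter fun z : F => φ z = α).card ≤ Bd)
    (h2 : 2 * ((d - 1) * Bd) ≤ Fintype.card F) (hdF : d ≤ Fintype.card F)
    (hneg : 4 * (Fintype.card F ^ d * (4 * d - 1) ^ Fintype.card F) ≤
      (4 * d) ^ Fintype.card F) (hs : (s + 1) * 2 ^ D.numNot < 2 ^ d)
    (hpos : ∀ c : Fin d → F, D.Accepts (X (testPos φ c))) :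
    ∃ (c : Fin d → F) (ω : F × A → Fin (4 * d)),
      (∀ c' : Fin d → F, ¬ testPos φ c' ⊆ testNeg ω) ∧
      ∀ y, (∀ v, X (testNeg ω) v → y v) → ¬ D.Accepts y → ∀ val val',
        D.IsEval (X (testPos φ c)) val → D.IsEval y val' → pat D val < pat D val' := by
  have hFpos : 0 < Fintype.card F := Fintype.card_pos
  set q := Fintype.card F with hq
  have hqd : 0 < q ^ d := pow_pos hFpos _
  -- the patterns of the positive tests
  choose val hval using fun c : Fin d → F => D.exists_eval (X (testPos φ c))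
  obtain ⟨p, hp, hcl⟩ : ∃ p ∈ pats D,
      q ^ d ≤ (univ.filter fun c : Fin d → F => pat D (val c) = p).card * 2 ^ D.numNot := by
    by_contra hcon
    push Not at hcon
    have h1 : q ^ d = ∑ p ∈ pats D, (univ.filter fun c : Fin d → F => pat D (val c) = p).card := by
      rw [← card_eq_sum_card_fiberwise (fun c _ => pat_mem D (val c)), card_univ,
        Fintype.card_fun, Fintype.card_fin]
    have h3 : (∑ p ∈ pats D,
        (univ.filter fun c : Fin d → F => pat D (val c) = p).card) * 2 ^ D.numNot <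
        (pats D).card * q ^ d := by
      rw [sum_mul, ← smul_eq_mul, ← sum_const]
      exact sum_lt_sum_of_nonempty ⟨_, pat_mem D (val fun _ => 0)⟩ hcon
    rw [← h1, mul_comm] at h3
    have h4 := Nat.mul_le_mul_right (q ^ d) (card_pats_le D)
    omega
  set cl := univ.filter fun c : Fin d → F => pat D (val c) = p with hcldef
  have hclne : cl.Nonempty := by
    rw [nonempty_iff_ne_empty]
    intro h
    rw [h, card_empty, Nat.zero_mul] at hcl
    omega
  -- the frozen circuit
  have hfro : ∀ z, ∃ v, D.toMod.IsFrozen (frz p) (X z) v :=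
    fun z => D.toMod.exists_frozen (frz p) (X z)
  choose v hv using hfro
  have hvcl : ∀ c ∈ cl, v (testPos φ c) = val c := by
    intro c hc
    have h3 : pat D (val c) = p := (mem_filter.1 hc).2
    refine (hv _).unique (isFrozen_of_isEval (hval c) fun j hj => ?_)
    rw [← h3]
    exact (frz_pat hj).symm
  set J : Finset (V ⊕ Fin s) := insert (Sum.inr D.out)
    ((univ.filter fun i => (∃ w, D.gate i = SliceCircuits.Gate.not w) ∧
      ofLex p i = true).biUnion fun i => (D.gate i).wires) with hJ
  obtain ⟨g, hg⟩ : ∃ g : Set (F × A) → Prop, g = fun z => ∀ w ∈ J, Sum.elim (X z) (v z) w :=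
    ⟨_, rfl⟩
  have hgood : Good d d {g} (s + 1) := by
    have h1 := (frozen_good D.toMod (frz p) d hd X hXty v hv).insert_and J
      (fun w z => Sum.elim (X z) (v z) w) (fun w _ => ⟨w, rfl⟩)
    refine h1.subset ?_
    rintro g' rfl
    exact Or.inl hg
  -- the positive tests in the class satisfy g
  have hgpos : ∀ c ∈ cl, g (testPos φ c) := by
    intro c hc
    rw [hg]
    intro w hw
    have h3 : pat D (val c) = p := (mem_filter.1 hc).2
    rw [hvcl c hc]
    rcases mem_insert.1 hw with rfl | hw
    · obtain ⟨val', h4, h5⟩ := hpos c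
      have h6 := h4.unique (hval c)
      subst h6
      exact h5
    · obtain ⟨i, hi, hw⟩ := mem_biUnion.1 hw
      obtain ⟨-, ⟨w', hi'⟩, h4⟩ := mem_filter.1 hi
      rw [← h3, pat_eq_true] at h4
      rw [hi'] at hw
      have h5 : w = w' := mem_singleton.1 hw
      subst h5
      have h6 := h4.2
      rw [hval c i, hi'] at h6
      exact not_not.1 h6
  have hs1 : s + 1 ≤ 2 ^ d := by
    have h3 : 0 < 2 ^ D.numNot := by positivity
    have h4 := Nat.le_mul_of_pos_right (s + 1) h3
    omega
  -- the choice of the negative test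
  obtain ⟨ω, hω, hgω⟩ : ∃ ω : F × A → Fin (4 * d),
      (∀ c' : Fin d → F, ¬ testPos φ c' ⊆ testNeg ω) ∧ g (testNeg ω) := by
    rcases step_count φ Bd hB hd h2 hdF hneg {g} (s + 1) hs1 hgood with
      ⟨bad, hbad, hc⟩ | ⟨g', hg', -, hcard⟩
    · obtain ⟨c, hccl, hcbad⟩ : ∃ c ∈ cl, c ∉ bad := by
        by_contra hcon
        push Not at hcon
        have h3 : cl.card ≤ bad.card := card_le_card hcon
        have h4 : q ^ d * 2 ^ d ≤ ((s + 1) * 2 ^ D.numNot) * q ^ d := by
          calc q ^ d * 2 ^ d ≤ (cl.card * 2 ^ D.numNot) * 2 ^ d := Nat.mul_le_mul_right _ hcl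
            _ = (cl.card * 2 ^ d) * 2 ^ D.numNot := by ring
            _ ≤ (bad.card * 2 ^ d) * 2 ^ D.numNot :=
              Nat.mul_le_mul_right _ (Nat.mul_le_mul_right _ h3)
            _ ≤ ((s + 1) * q ^ d) * 2 ^ D.numNot := Nat.mul_le_mul_right _ hbad
            _ = _ := by ring
        have h5 : ((s + 1) * 2 ^ D.numNot) * q ^ d < 2 ^ d * q ^ d :=
          Nat.mul_lt_mul_of_pos_right hs hqd
        rw [mul_comm (q ^ d)] at h4
        omega
      have h3 := hc c hcbad g rfl (hgpos c hccl)
      have : NeZero (4 * d) := ⟨by omega⟩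
      have h4 : testNeg (fun _ : F × A => (0 : Fin (4 * d))) = (∅ : Set (F × A)) := by
        ext ι
        rw [mem_testNeg]
        simp
      refine ⟨fun _ => 0, ?_, ?_⟩
      · intro c' h
        rw [h4] at h
        have h1 : ((0 : F), φ (ev c' 0)) ∈ testPos φ c' := rfl
        exact h h1
      · rw [h4]
        exact h3
    · rw [Set.mem_singleton_iff] at hg'
      subst hg'
      have h3 : 0 < (univ : Finset (F × A → Fin (4 * d))).card := by
        have : NeZero (4 * d) := ⟨by omega⟩
        exact card_pos.2 ⟨fun _ => 0, mem_univ _⟩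
      have h4 := h3.trans_le hcard
      obtain ⟨ω, hω⟩ := card_pos.1 (Nat.pos_of_ne_zero (right_ne_zero_of_mul h4.ne'))
      exact ⟨ω, (mem_filter.1 hω).2⟩
  rw [hg] at hgω
  obtain ⟨c, hc⟩ := hclne
  refine ⟨c, ω, hω, ?_⟩
  intro y hy hrej val1 val' hval1 hval'
  have e1 := hval1.unique (hval c)
  subst e1
  have h3 : pat D (val c) = p := (mem_filter.1 hc).2
  rw [h3]
  have hout : v (testNeg ω) D.out := hgω (Sum.inr D.out) (mem_insert_self _ _)
  by_contra hcon
  rcases lt_or_eq_of_le (not_lt.1 hcon) with hlt | heq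
  · obtain ⟨i, hi, h4, h5⟩ := lex_lt_iff.1 hlt
    obtain ⟨w, hw⟩ := not_of_mem_pats hp h5
    have h6 : val' i := (frz_pat ⟨w, hw⟩).1 h4
    have hmono := frozen_le (hv (testNeg ω)) hval' hy i.val (by
      intro j hj hn hb
      have h7 := hi j hj
      unfold frz at hb
      rw [← h7] at hb
      exact (frz_pat hn).1 hb)
    have h7 : Sum.elim (X (testNeg ω)) (v (testNeg ω)) w := by
      refine hgω w (mem_insert_of_mem (mem_biUnion.2 ⟨i, mem_filter.2
        ⟨mem_univ _, ⟨w, hw⟩, h5⟩, ?_⟩))
      rw [hw]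
      exact mem_singleton_self _
    rw [hval' i, hw] at h6
    refine h6 ?_
    cases w with
    | inl u => exact hy u h7
    | inr k =>
      refine hmono k ?_ h7
      exact D.acyclic i k (by rw [hw]; exact mem_singleton_self _)
  · have hmono := frozen_le (hv (testNeg ω)) hval' hy s (by
      intro j hj hn hb
      rw [← heq] at hb
      exact (frz_pat hn).1 hb)
    exact hrej ⟨val', hval', hmono D.out D.out.2 hout⟩

end Pool.Agent.SliceCircuits
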