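import Mathlib
import Pool.Agent.Lib.MP_0a1b52_lc_WIN.LexStep

/-!
The chain of graphs, and the bound on the number of drops.
-/

namespace Pool.Agent.SliceCircuits

open Finset Pool.Agent Pool.Agent.CliqueModules Pool.Agent.MP0a1b52

set_option linter.unusedSectionVars false

variable {n0 n : ℕ} {F A W J β : Type} [Field F] [Fintype F] [DecidableEq F]
  [Fintype A] [DecidableEq A] {d p M t s : ℕ}
  (φ : F → A) (σ : W → J) (π : F × A → W) (η : Fin M → GV F A W d p → Fin n0) {b : Fin M → β}

open Classical in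
/-- The number of drops is smaller than `2 ^ numNot`. -/
theorem regions_lt (hn : n0 ≤ n) (ht : 1 ≤ t) (hnt : n0 + t ≤ n)
    (hsq : Nat.sqrt n = Nat.sqrt n0 + t) (hε : IsPack η b) (hd : 2 ≤ d) [Nonempty J] [Fintype J]
    [DecidableEq J] (hJ : (∀ j j' : J, j = j') ∨ Function.Injective b)
    (hπ : ∀ h : F → A, ∃ w : J → W, (∀ j, σ (w j) = j) ∧ ∀ i, w (σ (π (i, h i))) = π (i, h i))
    (hcard : Fintype.card (GS F J d p) = Nat.sqrt n0 + 1)
    (Bd : ℕ) (hB : ∀ α, (univ.filter fun z : F => φ z = α).card ≤ Bd)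
    (h2 : 2 * ((d - 1) * Bd) ≤ Fintype.card F) (hdF : d ≤ Fintype.card F)
    (hneg : 4 * (Fintype.card F ^ d * (4 * d - 1) ^ Fintype.card F) ≤
      (4 * d) ^ Fintype.card F) (D : SliceCircuits.Circuit (CliqueModules.EdgeVar n) s)
    (hs : (s + 1) * 2 ^ D.numNot < 2 ^ d) (a e : ℕ → ℕ)
    (hstart : (n0 + t).choose 2 + Fintype.card F * Fintype.card A ≤ a 0)
    (hgap : ∀ i < M, a i + Fintype.card F * Fintype.card A ≤ e i)
    (hnext : ∀ i, i + 1 < M → e i < a (i + 1))
    (hend : ∀ i < M, e i ≤ (outMax n0 n t).card)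
    (hDa : ∀ i < M, ∀ G : SimpleGraph (Fin n), G.edgeSet.ncard = a i →
      CliqueModules.HasClique G → D.Accepts (fun e => G.Adj e.1.1 e.1.2))
    (hDe : ∀ i < M, ∀ G : SimpleGraph (Fin n), G.edgeSet.ncard = e i →
      ¬ CliqueModules.HasClique G → ¬ D.Accepts (fun e => G.Adj e.1.1 e.1.2)) :
    M < 2 ^ D.numNot := by
  rcases Nat.eq_zero_or_pos M with hM | hM
  · rw [hM]
    positivity
  have hApos : 0 < Fintype.card A := Fintype.card_pos_iff.2 ⟨φ 0⟩
  have hFpos : 0 < Fintype.card F := Fintype.card_pos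
  have hFA : Fintype.card F ≤ Fintype.card F * Fintype.card A :=
    Nat.le_mul_of_pos_right _ hApos
  -- acceptance in terms of assignments
  have haccP : ∀ i < M, ∀ (x : Fin M → Set (F × A)) (Fo : Finset (CliqueModules.EdgeVar n)),
      outMin n0 n t ⊆ Fo → Fo ⊆ outMax n0 n t →
      (edgesOf (UG φ σ π η x)).card + Fo.card = a i →
      (∃ ρ, ∃ c : Fin d → F, testPos φ c ⊆ x ρ) →
      D.Accepts (lift (padProj n0 Fo) (UG φ σ π η x)) := by
    intro i hi x Fo hF1 hF2 hc
    have h1 : (pad Fo (UG φ σ π η x)).edgeSet.ncard = a i := by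
      rw [card_pad hn Fo (fun e he => (mem_filter.1 (hF2 he)).2.1), hc]
    have h3 := hDa i hi _ h1
    rw [hasClique_pad hn ht hnt hsq Fo hF1 hF2, hasClique_iff, ← hcard,
      UG_clique φ σ π η hε (by omega) hJ hπ, pad_asg] at h3
    exact h3
  have haccN : ∀ i < M, ∀ (x : Fin M → Set (F × A)) (Fo : Finset (CliqueModules.EdgeVar n)),
      outMin n0 n t ⊆ Fo → Fo ⊆ outMax n0 n t →
      (edgesOf (UG φ σ π η x)).card + Fo.card = e i →
      (¬ ∃ ρ, ∃ c : Fin d → F, testPos φ c ⊆ x ρ) →
      ¬ D.Accepts (lift (padProj n0 Fo) (UG φ σ π η x)) := by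
    intro i hi x Fo hF1 hF2 hc
    have h1 : (pad Fo (UG φ σ π η x)).edgeSet.ncard = e i := by
      rw [card_pad hn Fo (fun e he => (mem_filter.1 (hF2 he)).2.1), hc]
    have h3 := hDe i hi _ h1
    rw [hasClique_pad hn ht hnt hsq Fo hF1 hF2, hasClique_iff, ← hcard,
      UG_clique φ σ π η hε (by omega) hJ hπ, pad_asg] at h3
    exact h3
  have hpe : ∀ c : Fin d → F, ¬ testPos φ c ⊆ (∅ : Set (F × A)) := by
    intro c h
    have h1 : ((0 : F), φ (ev c 0)) ∈ testPos φ c := rfl
    exact h h1
  have hcount : ∀ (x : Fin M → Set (F × A)) (ρ : Fin M), x ρ = ∅ → ∀ z,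
      (edgesOf (UG φ σ π η (Function.update x ρ z))).card =
        (edgesOf (UG φ σ π η x)).card + z.ncard :=
    fun x ρ hxρ z => card_edgesOf_update φ σ π η hε x ρ hxρ z
  have hmono : ∀ (Fo Fo' : Finset (CliqueModules.EdgeVar n)) (x y : Fin M → Set (F × A)),
      Fo ⊆ Fo' → (∀ ρ, x ρ ⊆ y ρ) → ∀ v, lift (padProj n0 Fo) (UG φ σ π η x) v →
      lift (padProj n0 Fo') (UG φ σ π η y) v := by
    intro Fo Fo' x y hF hxy v hv
    exact lift_padProj_mono hF _ v ((isProj_lift φ σ π η hε (padProj n0 Fo)).mono hxy v hv)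
  have hup : ∀ (x : Fin M → Set (F × A)) (ρ : Fin M) (z z' : Set (F × A)), z ⊆ z' → ∀ ρ',
      Function.update x ρ z ρ' ⊆ Function.update x ρ z' ρ' := by
    intro x ρ z z' hz ρ'
    by_cases h : ρ' = ρ
    · rw [h, Function.update_self, Function.update_self]
      exact hz
    · rw [Function.update_of_ne h, Function.update_of_ne h]
  -- one region
  have hstep : ∀ j, ∀ hj : j < M, ∀ (x : Fin M → Set (F × A))
      (Fo : Finset (CliqueModules.EdgeVar n)), x ⟨j, hj⟩ = ∅ →
      outMin n0 n t ⊆ Fo → Fo ⊆ outMax n0 n t →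
      (edgesOf (UG φ σ π η x)).card + Fo.card + Fintype.card F = a j →
      ∃ (c : Fin d → F) (ω : F × A → Fin (4 * d)),
      (∀ c' : Fin d → F, ¬ testPos φ c' ⊆ testNeg ω) ∧
      ∀ y, (∀ v, lift (padProj n0 Fo) (UG φ σ π η (Function.update x ⟨j, hj⟩ (testNeg ω))) v →
        y v) → ¬ D.Accepts y → ∀ val val', D.IsEval (lift (padProj n0 Fo)
        (UG φ σ π η (Function.update x ⟨j, hj⟩ (testPos φ c)))) val → D.IsEval y val' →
        pat D val < pat D val' := by
    intro j hj x Fo hxρ hF1 hF2 hc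
    set ρ : Fin M := ⟨j, hj⟩ with hρ
    set X : Set (F × A) → CliqueModules.EdgeVar n → Prop := fun z =>
      lift (padProj n0 Fo) (UG φ σ π η (Function.update x ρ z)) with hX
    have hproj := isProj_lift φ σ π η hε (padProj n0 Fo)
    have hXty : ∀ v, (∃ ι, ∀ z, X z v ↔ ι ∈ z) ∨ (∃ p : Prop, ∀ z, X z v ↔ p) := by
      intro e
      rcases hproj e with ⟨ρ', ι, hc⟩ | ⟨p, hc⟩
      · by_cases hρρ : ρ' = ρ
        · left
          refine ⟨ι, fun z => ?_⟩
          have h3 := hc (Function.update x ρ z)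
          rw [hρρ, Function.update_self] at h3
          exact h3
        · right
          refine ⟨ι ∈ x ρ', fun z => ?_⟩
          have h3 := hc (Function.update x ρ z)
          rw [Function.update_of_ne hρρ] at h3
          exact h3
      · exact Or.inr ⟨p, fun z => hc _⟩
    have hpos : ∀ c : Fin d → F, D.Accepts (X (testPos φ c)) := by
      intro c
      refine haccP j hj _ Fo hF1 hF2 ?_ ⟨ρ, c, by rw [Function.update_self]⟩
      rw [hcount x ρ hxρ, ncard_testPos]
      omega
    exact lex_step φ D hd X hXty Bd hB h2 hdF hneg hs hpos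
  -- the induction
  have claim : ∀ r j, ∀ hj : j < M, j + (r + 1) = M → ∀ (x : Fin M → Set (F × A))
      (Fo : Finset (CliqueModules.EdgeVar n)), (∀ ρ, ∀ c : Fin d → F, ¬ testPos φ c ⊆ x ρ) →
      (∀ ρ : Fin M, j ≤ ρ.val → x ρ = ∅) → outMin n0 n t ⊆ Fo → Fo ⊆ outMax n0 n t →
      (edgesOf (UG φ σ π η x)).card + Fo.card + Fintype.card F = a j →
      ∃ c : Fin d → F, ∀ val, D.IsEval (lift (padProj n0 Fo)
        (UG φ σ π η (Function.update x ⟨j, hj⟩ (testPos φ c)))) val →
        r + 1 ≤ above D (pat D val) := by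
    intro r
    induction r with
    | zero =>
      intro j hj hjM x Fo hx hxe hF1 hF2 hc
      have hxρ : x ⟨j, hj⟩ = ∅ := hxe _ le_rfl
      obtain ⟨c, ω, hω, hlt⟩ := hstep j hj x Fo hxρ hF1 hF2 hc
      refine ⟨c, fun val hval => ?_⟩
      have h3 := hcount x ⟨j, hj⟩ hxρ (testNeg ω)
      have h4 := ncard_le_card (testNeg ω)
      have h5 := hend j hj
      have h6 := hgap j hj
      obtain ⟨F', hF'1, hF'2, hF'3⟩ := exists_subsuperset_card_eq hF2
        (show Fo.card ≤ e j -
          (edgesOf (UG φ σ π η (Function.update x ⟨j, hj⟩ (testNeg ω)))).card by omega)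
        (show e j -
          (edgesOf (UG φ σ π η (Function.update x ⟨j, hj⟩ (testNeg ω)))).card ≤
          (outMax n0 n t).card by omega)
      have hrej : ¬ D.Accepts (lift (padProj n0 F')
          (UG φ σ π η (Function.update x ⟨j, hj⟩ (testNeg ω)))) := by
        refine haccN j hj _ F' (hF1.trans hF'1) hF'2 (by omega) ?_
        rintro ⟨ρ', c', h⟩
        by_cases hρ : ρ' = ⟨j, hj⟩
        · rw [hρ, Function.update_self] at h
          exact hω c' h
        · rw [Function.update_of_ne hρ] at h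
          exact hx ρ' c' h
      obtain ⟨val', hval'⟩ := D.exists_eval (lift (padProj n0 F')
          (UG φ σ π η (Function.update x ⟨j, hj⟩ (testNeg ω))))
      have h7 := hlt _ (hmono Fo F' _ _ hF'1 (fun _ => subset_rfl)) hrej val val' hval hval'
      have h8 := above_succ D h7
      omega
    | succ r ih =>
      intro j hj hjM x Fo hx hxe hF1 hF2 hc
      have hxρ : x ⟨j, hj⟩ = ∅ := hxe _ le_rfl
      obtain ⟨c, ω, hω, hlt⟩ := hstep j hj x Fo hxρ hF1 hF2 hc
      refine ⟨c, fun val hval => ?_⟩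
      have hj' : j + 1 < M := by omega
      set x' := Function.update x ⟨j, hj⟩ (testNeg ω) with hx'
      have h3 := hcount x ⟨j, hj⟩ hxρ (testNeg ω)
      rw [← hx'] at h3
      have h4 := ncard_le_card (testNeg ω)
      have h5 := hend (j + 1) hj'
      have h6 := hgap j hj
      have h7 := hgap (j + 1) hj'
      have h8 := hnext j hj'
      have hval'' : ∀ ρ', ∀ c' : Fin d → F, ¬ testPos φ c' ⊆ x' ρ' := by
        intro ρ' c' h
        rw [hx'] at h
        by_cases hρ : ρ' = ⟨j, hj⟩
        · rw [hρ, Function.update_self] at h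
          exact hω c' h
        · rw [Function.update_of_ne hρ] at h
          exact hx ρ' c' h
      have hxe' : ∀ ρ : Fin M, j + 1 ≤ ρ.val → x' ρ = ∅ := by
        intro ρ' hρ'
        have h : ρ' ≠ ⟨j, hj⟩ := by
          rintro rfl
          have : j + 1 ≤ j := hρ'
          omega
        rw [hx', Function.update_of_ne h]
        exact hxe ρ' (by omega)
      obtain ⟨F', hF'1, hF'2, hF'3⟩ := exists_subsuperset_card_eq hF2
        (show Fo.card ≤ a (j + 1) - Fintype.card F - (edgesOf (UG φ σ π η x')).card by omega)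
        (show a (j + 1) - Fintype.card F - (edgesOf (UG φ σ π η x')).card ≤
          (outMax n0 n t).card by omega)
      obtain ⟨c', hc'⟩ := ih (j + 1) hj' (by omega) x' F' hval'' hxe' (hF1.trans hF'1) hF'2
        (by omega)
      have hxρ' : x' ⟨j + 1, hj'⟩ = ∅ := hxe' _ le_rfl
      set P' := lift (padProj n0 F')
        (UG φ σ π η (Function.update x' ⟨j + 1, hj'⟩ (testPos φ c'))) with hP'
      -- the rejected graph
      obtain ⟨y, hy1, hy2, hy3⟩ : ∃ y : CliqueModules.EdgeVar n → Prop,
          (∀ v, lift (padProj n0 Fo) (UG φ σ π η x') v → y v) ∧ (∀ v, y v → P' v) ∧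
          ¬ D.Accepts y := by
        have hxx : ∀ (z : Set (F × A)) ρ', x' ρ' ⊆
            Function.update x' ⟨j + 1, hj'⟩ z ρ' := by
          intro z ρ'
          by_cases h : ρ' = ⟨j + 1, hj'⟩
          · rw [h, hxρ']
            exact Set.empty_subset _
          · rw [Function.update_of_ne h]
        by_cases hcase : e j ≤ (edgesOf (UG φ σ π η x')).card + F'.card
        · obtain ⟨F'', hF''1, hF''2, hF''3⟩ := exists_subsuperset_card_eq hF'1
            (show Fo.card ≤ e j - (edgesOf (UG φ σ π η x')).card by omega)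
            (show e j - (edgesOf (UG φ σ π η x')).card ≤ F'.card by omega)
          refine ⟨lift (padProj n0 F'') (UG φ σ π η x'),
            hmono _ _ _ _ hF''1 (fun _ => subset_rfl), hmono _ _ _ _ hF''2 (hxx _), ?_⟩
          refine haccN j hj _ F'' (hF1.trans hF''1) (hF''2.trans hF'2) (by omega) ?_
          rintro ⟨ρ', c'', h⟩
          exact hval'' ρ' c'' h
        · have h9 : (testPos φ c').toFinset.card = Fintype.card F := by
            rw [← Set.ncard_eq_toFinset_card', ncard_testPos]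
          obtain ⟨T, hT1, hT2⟩ := exists_subset_card_eq
            (show e j - ((edgesOf (UG φ σ π η x')).card + F'.card) ≤
              (testPos φ c').toFinset.card by omega)
          have h10 : (T : Set (F × A)).ncard = T.card := Set.ncard_coe_finset T
          have h11 := hcount x' ⟨j + 1, hj'⟩ hxρ' (T : Set (F × A))
          refine ⟨lift (padProj n0 F')
            (UG φ σ π η (Function.update x' ⟨j + 1, hj'⟩ (T : Set (F × A)))),
            hmono _ _ _ _ hF'1 (hxx _), hmono _ _ _ _ subset_rfl (hup _ _ _ _ ?_), ?_⟩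
          · intro ι hι
            exact Set.mem_toFinset.1 (hT1 hι)
          · refine haccN j hj _ F' (hF1.trans hF'1) hF'2 (by omega) ?_
            rintro ⟨ρ', c'', h⟩
            by_cases hρ : ρ' = ⟨j + 1, hj'⟩
            · rw [hρ, Function.update_self] at h
              have h12 := Set.ncard_le_ncard h (Set.toFinite _)
              rw [ncard_testPos] at h12
              omega
            · rw [Function.update_of_ne hρ] at h
              exact hval'' ρ' c'' h
      obtain ⟨val1, hval1⟩ := D.exists_eval y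
      obtain ⟨val2, hval2⟩ := D.exists_eval P'
      have h9 := hlt y hy1 hy3 val val1 hval hval1
      have h10 := pat_mono hval1 hval2 hy2
      have h11 := above_succ D (h9.trans_le h10)
      have h12 := hc' val2 hval2
      omega
  -- the start
  have hE : (edgesOf (UG φ σ π η fun _ => ∅)).card ≤ n0.choose 2 := by
    rw [← card_edgeVar]
    exact card_le_card (subset_univ _)
  have h3 := card_outMin hnt
  have h4 := hend 0 hM
  have h5 := hgap 0 hM
  obtain ⟨Fo, hF1, hF2, hF3⟩ := exists_subsuperset_card_eq (outMin_subset n0 n t)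
    (show (outMin n0 n t).card ≤
      a 0 - Fintype.card F - (edgesOf (UG φ σ π η fun _ => ∅)).card by omega)
    (show a 0 - Fintype.card F - (edgesOf (UG φ σ π η fun _ => ∅)).card ≤
      (outMax n0 n t).card by omega)
  obtain ⟨c, hc⟩ := claim (M - 1) 0 hM (by omega) (fun _ => ∅) Fo (fun _ => hpe)
    (fun _ _ => rfl) hF1 hF2 (by omega)
  obtain ⟨val, hval⟩ := D.exists_eval (lift (padProj n0 Fo)
    (UG φ σ π η (Function.update (fun _ => ∅) ⟨0, hM⟩ (testPos φ c))))
  have h6 := hc val hval
  have h7 := above_lt D val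
  omega

end Pool.Agent.SliceCircuits
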