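import Mathlib
import Pool.Agent.Lib.MP_0a1b52_lc_WIN.Regions

/-!
Circuits which compute the clique function on the slices of a chain of drops: the number of drops
is smaller than `2 ^ numNot`.
-/

namespace Pool.Agent.SliceCircuits

open Finset Pool.Agent Pool.Agent.CliqueModules Pool.Agent.MP0a1b52

theorem drops_core : ∃ C : ℕ, 81 ≤ C ∧ ∀ (n0 n t s M : ℕ)
    (D : SliceCircuits.Circuit (CliqueModules.EdgeVar n) s)
    (a a2 : ℕ → ℕ), n0 ≤ n → 1 ≤ t → n0 + t ≤ n → Nat.sqrt n = Nat.sqrt n0 + t →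
    C * (Nat.log 2 (n * s) + 1) ^ 8 ≤ n0 →
    M * (C * (Nat.log 2 (n * s) + 1) ^ 8) ≤ n0.choose 2 →
    (n0 + t).choose 2 + C * (Nat.log 2 (n * s) + 1) ^ 4 ≤ a 0 →
    (∀ i < M, a i + C * (Nat.log 2 (n * s) + 1) ^ 4 ≤ a2 i) →
    (∀ i, i + 1 < M → a2 i < a (i + 1)) →
    (∀ i < M, a2 i ≤ (outMax n0 n t).card) →
    (∀ i < M, ∀ G : SimpleGraph (Fin n), G.edgeSet.ncard = a i →
      CliqueModules.HasClique G → D.Accepts (fun e => G.Adj e.1.1 e.1.2)) →
    (∀ i < M, ∀ G : SimpleGraph (Fin n), G.edgeSet.ncard = a2 i →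
      ¬ CliqueModules.HasClique G → ¬ D.Accepts (fun e => G.Adj e.1.1 e.1.2)) →
    M < 2 ^ D.numNot := by
  classical
  obtain ⟨C, hC81, hC⟩ := params2
  refine ⟨256 * C, by omega, ?_⟩
  intro n0 n t s M D a a2 hn ht hnt hsqt hCL hMB hstart hgap hnext hend hDa hDe
  rcases Nat.eq_zero_or_pos M with hM0 | hM1
  · rw [hM0]
    positivity
  set L0 := Nat.log 2 (n * s) + 1 with hL0
  set L := 2 * L0 with hL
  have hL1 : 1 ≤ L := by omega
  have e8 : 256 * C * L0 ^ 8 = C * L ^ 8 := by rw [hL]; ring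
  have e4 : C * L ^ 4 ≤ 256 * C * L0 ^ 4 := by
    have h1 : 256 * C * L0 ^ 4 = 16 * (C * L ^ 4) := by rw [hL]; ring
    omega
  rw [e8] at hCL hMB
  by_contra hcon
  have hcon' : 2 ^ D.numNot ≤ M := not_lt.1 hcon
  have hL8 : 1 ≤ L ^ 8 := Nat.pow_pos (by omega)
  have hn81 : 81 ≤ n0 := by
    calc 81 ≤ C := hC81
      _ ≤ C * L ^ 8 := Nat.le_mul_of_pos_right _ hL8
      _ ≤ n0 := hCL
  obtain ⟨d, q, Bd, a', hqp, hd, hdq, hBd, hqa, h2, hneg, hbig, hs1, hs2, hs3⟩ := hC L hL1
  have hs0 : 0 < s := lt_of_le_of_lt (Nat.zero_le _) D.out.isLt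
  have : Fact q.Prime := ⟨hqp⟩
  have hq0 : 0 < q := hqp.pos
  have ha0 : 0 < a' := by
    rcases Nat.eq_zero_or_pos a' with h | h
    · subst h; omega
    · exact h
  have : NeZero a' := ⟨by omega⟩
  set φ : ZMod q → Fin a' := hsh q Bd a' hqa with hφ
  have hB : ∀ α, (univ.filter fun z : ZMod q => φ z = α).card ≤ Bd := hsh_fiber q Bd a' hqa hBd
  have hcF : Fintype.card (ZMod q) = q := ZMod.card q
  have hcA : Fintype.card (Fin a') = a' := Fintype.card_fin a'
  have hcI : Fintype.card (ZMod q × Fin a') = q * a' := by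
    rw [Fintype.card_prod, hcF, Fintype.card_fin]
  -- the gap
  have hqaL : q * a' ≤ C * L ^ 4 := by
    have h1 : (q * a') ^ 2 ≤ (C * L ^ 4) ^ 2 := by
      calc (q * a') ^ 2 ≤ 32 * L * (L + 1) * (q * a') + 16 * L * (q * a') ^ 2 := by
            have h3 : (q * a') ^ 2 ≤ 16 * L * (q * a') ^ 2 :=
              Nat.le_mul_of_pos_left _ (by omega)
            omega
        _ ≤ C * L ^ 8 := hs1
        _ ≤ C * C * L ^ 8 := Nat.mul_le_mul_right _ (Nat.le_mul_of_pos_left _ (by omega))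
        _ = (C * L ^ 4) ^ 2 := by ring
    exact (Nat.pow_le_pow_iff_left (by norm_num)).1 h1
  -- sizes
  have hnsL0 : n * s < 2 ^ L0 := Nat.lt_pow_succ_log_self (by norm_num) _
  have hnsL : n * s < 2 ^ L :=
    hnsL0.trans_le (Nat.pow_le_pow_right (by norm_num) (by omega))
  have hnL : n0 < 2 ^ L := lt_of_le_of_lt (hn.trans (Nat.le_mul_of_pos_right _ hs0)) hnsL
  have hn0L0 : n0 ≤ 2 ^ L0 := (hn.trans (Nat.le_mul_of_pos_right _ hs0)).trans hnsL0.le
  have hML : M ≤ 2 ^ (2 * L0) := by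
    have h1 : M ≤ M * (C * L ^ 8) := Nat.le_mul_of_pos_right _ (by positivity)
    have h3 : n0.choose 2 ≤ n0 * n0 := by
      have h4 := two_mul_choose_two_le n0
      omega
    calc M ≤ n0 * n0 := (h1.trans hMB).trans h3
      _ ≤ 2 ^ L0 * 2 ^ L0 := Nat.mul_le_mul hn0L0 hn0L0
      _ = 2 ^ (2 * L0) := by rw [← pow_add]; congr 1; ring
  have hsL : (s + 1) * 2 ^ D.numNot < 2 ^ d := by
    have h1 : s + 1 ≤ 2 ^ L0 :=
      Nat.succ_le_of_lt ((Nat.le_mul_of_pos_left _ (by omega)).trans_lt hnsL0)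
    calc (s + 1) * 2 ^ D.numNot ≤ 2 ^ L0 * 2 ^ (2 * L0) := Nat.mul_le_mul h1 (hcon'.trans hML)
      _ = 2 ^ (L0 + 2 * L0) := (pow_add _ _ _).symm
      _ < 2 ^ (2 * L) := Nat.pow_lt_pow_right (by norm_num) (by omega)
      _ ≤ 2 ^ d := hbig
  have hsq : 2 * q + q * d ≤ Nat.sqrt n0 := by
    rw [Nat.le_sqrt']
    exact hs2.trans hCL
  have hsq9 : 9 ≤ Nat.sqrt n0 := by
    rw [Nat.le_sqrt']
    omega
  have hsq2 : 8 * (Nat.sqrt n0 + 1) ≤ n0 := by
    have h1 : Nat.sqrt n0 * Nat.sqrt n0 ≤ n0 := Nat.sqrt_le n0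
    calc 8 * (Nat.sqrt n0 + 1) ≤ 9 * Nat.sqrt n0 := by omega
      _ ≤ Nat.sqrt n0 * Nat.sqrt n0 := Nat.mul_le_mul_right _ hsq9
      _ ≤ n0 := h1
  have hs3' : 8 * (q ^ 3 * d) ≤ n0 := hs3.trans hCL
  set e := q ^ 3 * d + (Nat.sqrt n0 + 1) with he
  have he4 : 4 * e ≤ n0 := by omega
  have hqa1 : 1 ≤ q * a' := Nat.mul_pos hq0 ha0
  have haux : ∀ p, p ≤ Nat.sqrt n0 + 1 →
      Nonempty (((ZMod q × Fin d × ZMod q × ZMod q) ⊕ Fin p) ↪ Fin e) := by
    intro p hp
    apply Function.Embedding.nonempty_of_card_le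
    simp only [Fintype.card_sum, Fintype.card_prod, Fintype.card_fin, hcF]
    have h1 : q * (d * (q * q)) = q ^ 3 * d := by ring
    omega
  have hbound : 32 * L * (L + 1) * (q * a') * M + 16 * L * (q * a') ^ 2 * M ≤
      (univ : Finset (CliqueModules.EdgeVar n0)).card := by
    rw [card_edgeVar]
    calc 32 * L * (L + 1) * (q * a') * M + 16 * L * (q * a') ^ 2 * M
        = M * (32 * L * (L + 1) * (q * a') + 16 * L * (q * a') ^ 2) := by ring
      _ ≤ M * (C * L ^ 8) := Nat.mul_le_mul_left _ hs1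
      _ ≤ n0.choose 2 := hMB
  have hstart' : (n0 + t).choose 2 + Fintype.card (ZMod q) * Fintype.card (Fin a') ≤ a 0 := by
    rw [hcF, hcA]
    omega
  have hgap' : ∀ i < M,
      a i + Fintype.card (ZMod q) * Fintype.card (Fin a') ≤ a2 i := by
    intro i hi
    have := hgap i hi
    rw [hcF, hcA]
    omega
  refine hcon ?_
  rcases CliqueCircuits.exists_packing' univ (ZMod q × Fin a') (q * a') e L M hcI hqa1 he4 hnL hL1
    hM1 hbound with hstar | hmatch
  · obtain ⟨U, X, Q, v, lab, w, hU, hv, hUv, hlU, hlv, hlw, hHR, hXQ⟩ := hstar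
    set p := Nat.sqrt n0 + 1 - (q + 1 + q * d) with hp
    obtain ⟨ua⟩ := haux p (by omega)
    have hcardS : Fintype.card (GS (ZMod q) Unit d p) = Nat.sqrt n0 + 1 := by
      simp only [Fintype.card_sum, Fintype.card_prod, Fintype.card_fin, hcF, Fintype.card_unit]
      omega
    set ε := starMap U ua v w with hε
    have hpack : IsPack ε (fun ρ : Fin X × Fin Q => ρ.2) := by
      refine ⟨?_, ?_, ?_, ?_⟩
      · rintro ⟨i, y⟩ ⟨i', y'⟩ ((ι | u) | z) ((ι' | u') | z') h
        · have h1 := congrArg lab h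
          simp only [hε, starMap, hlw, Option.some.injEq, Prod.mk.injEq] at h1
          rw [h1.2]
        · have h1 := congrArg lab h
          simp only [hε, starMap, hlw, hlv] at h1
          exact absurd h1 (by simp)
        · have h1 := congrArg lab h
          simp only [hε, starMap, hlw, hlU] at h1
          exact absurd h1 (by simp)
        · have h1 := congrArg lab h
          simp only [hε, starMap, hlw, hlv] at h1
          exact absurd h1.symm (by simp)
        · rfl
        · exact absurd h.symm (hUv _ _)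
        · have h1 := congrArg lab h
          simp only [hε, starMap, hlw, hlU] at h1
          exact absurd h1.symm (by simp)
        · exact absurd h (hUv _ _)
        · have h1 := ua.injective (hU h)
          rw [h1]
      · intro ρ ρ' z
        rfl
      · rintro ⟨i, y⟩ ⟨i', y'⟩ ι h
        have h1 := congrArg lab h
        simp only [hε, starMap, hlw, Option.some.injEq, Prod.mk.injEq] at h1
        exact h1.1
      · rintro ⟨i, y⟩ ⟨i', y'⟩ u h h'
        have h1 : i = i' := hv h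
        exact Prod.ext h1 h'
    obtain ⟨g⟩ : Nonempty (Fin M ↪ Fin X × Fin Q) := by
      apply Function.Embedding.nonempty_of_card_le
      rw [Fintype.card_prod, Fintype.card_fin, Fintype.card_fin, Fintype.card_fin]
      exact hXQ
    exact regions_lt φ (fun _ : Unit => ()) (fun _ => ()) (fun ρ => ε (g ρ)) hn ht hnt
      hsqt (hpack.comp g g.injective) hd
      (Or.inl fun _ _ => rfl) (fun h => ⟨fun _ => (), fun _ => rfl, fun _ => rfl⟩) hcardS
      Bd hB (by rw [hcF]; exact h2) (by rw [hcF]; exact hdq) (by rw [hcF]; exact hneg)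
      D hsL a a2 hstart' hgap' hnext hend hDa hDe
  · obtain ⟨U, z, w, hU, hz, hw, hzw, hUz, hUw, hHR⟩ := hmatch
    set p := Nat.sqrt n0 + 1 - (q + q + q * d) with hp
    obtain ⟨ua⟩ := haux p (by omega)
    have hcardS : Fintype.card (GS (ZMod q) (ZMod q) d p) = Nat.sqrt n0 + 1 := by
      simp only [Fintype.card_sum, Fintype.card_prod, Fintype.card_fin, hcF]
      omega
    have ix : Fin M × (ZMod q × Fin a') ≃ Fin (M * (q * a')) :=
      Fintype.equivOfCardEq (by
        rw [Fintype.card_prod, hcI, Fintype.card_fin, Fintype.card_fin])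
    set ε := matchMap (d := d) U ua ix z w with hε
    have hpack : IsPack ε (id : Fin M → Fin M) := by
      refine ⟨?_, ?_, ?_, ?_⟩
      · rintro ρ ρ' ((ι | u) | c) ((ι' | u') | c') h
        · have h1 := ix.injective (hw h)
          rw [(Prod.mk.inj h1).2]
        · exact absurd h.symm (hzw _ _)
        · exact absurd h.symm (hUw _ _)
        · exact absurd h (hzw _ _)
        · have h1 := ix.injective (hz h)
          rw [(Prod.mk.inj h1).2]
        · exact absurd h.symm (hUz _ _)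
        · exact absurd h (hUw _ _)
        · exact absurd h (hUz _ _)
        · have h1 := ua.injective (hU h)
          rw [h1]
      · intro ρ ρ' c
        rfl
      · intro ρ ρ' ι h
        have h1 := ix.injective (hw h)
        exact (Prod.mk.inj h1).1
      · intro ρ ρ' u _ h
        exact h
    exact regions_lt φ (Prod.fst : ZMod q × Fin a' → ZMod q) id ε hn ht hnt hsqt hpack hd
      (Or.inr Function.injective_id) (fun h => ⟨fun i => (i, h i), fun _ => rfl, fun _ => rfl⟩)
      hcardS Bd hB (by rw [hcF]; exact h2) (by rw [hcF]; exact hdq) (by rw [hcF]; exact hneg)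
      D hsL a a2 hstart' hgap' hnext hend hDa hDe

end Pool.Agent.SliceCircuits
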