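import Mathlib
import Pool.Agent.Lib.MP_0a1b52_lc_WIN.Main
import Pool.Agent.Lib.MP_0a1b52_lc_SLICE2.Drops

/-!
The lower bound in terms of drops.
-/

namespace Pool.Agent.SliceCircuits

open Finset Pool.Agent Pool.Agent.CliqueModules

/-- A small circuit which accepts the graphs with a clique and `a i` edges and rejects the graphs
without a clique and `e i` edges, for all `i < d`, where `a 0 < e 0 < a 1 < e 1 < ...` and
`a i + C log⁴ (n s) ≤ e i`, has more than `log₂ d` NOT gates. -/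
theorem lower3 : ∃ C : ℕ, ∀ (n s : ℕ) (D : SliceCircuits.Circuit (SliceCircuits.EdgeVar n) s)
    (d : ℕ) (a e : ℕ → ℕ),
    C * (Nat.log 2 (n * s) + 1) ^ 8 ≤ Nat.sqrt n →
    (∀ i < d, a i + C * (Nat.log 2 (n * s) + 1) ^ 4 ≤ e i) →
    (∀ i, i + 1 < d → e i < a (i + 1)) →
    (∀ i < d, n + C * d * (Nat.log 2 (n * s) + 1) ^ 8 ≤ a i ∧
      e i + n * Nat.sqrt n + C * d * (Nat.log 2 (n * s) + 1) ^ 8 ≤ n.choose 2) →
    (∀ i < d, ∀ G : SimpleGraph (Fin n), G.edgeSet.ncard = a i → HasClique G →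
      D.Accepts (fun e => G.Adj e.1.1 e.1.2)) →
    (∀ i < d, ∀ G : SimpleGraph (Fin n), G.edgeSet.ncard = e i → ¬ HasClique G →
      ¬ D.Accepts (fun e => G.Adj e.1.1 e.1.2)) → d < 2 ^ D.numNot := by
  obtain ⟨C, hC81, hC⟩ := drops_core
  refine ⟨2048 * C, ?_⟩
  intro n s D d a e hu hae hnext hrange hDa hDe
  rcases Nat.eq_zero_or_pos d with hd0 | hd1
  · rw [hd0]
    positivity
  set L := Nat.log 2 (n * s) + 1 with hL
  have hL1 : 1 ≤ L := by omega
  set B := C * L ^ 8 with hB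
  have hB1 : 1 ≤ B := Nat.mul_pos (by omega) (Nat.pow_pos (by omega))
  have hBu : 1024 * B ≤ Nat.sqrt n := by
    have h1 : 2048 * C * L ^ 8 = 2048 * B := by rw [hB]; ring
    omega
  have e0 : 2048 * C * d * L ^ 8 = 1024 * (2 * d * B) := by rw [hB]; ring
  rw [e0] at hrange
  have hN : n + 1024 * (2 * d * B) + n * Nat.sqrt n + 1024 * (2 * d * B) ≤ n.choose 2 := by
    obtain ⟨h1, h2⟩ := hrange 0 hd1
    have h3 := hae 0 hd1
    omega
  obtain ⟨n0, t, hn, ht, hnt, hsq, hBn, hM, hstart, hend⟩ :=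
    slice_params n (2 * d) B hB1 hBu hN
  rw [Nat.mul_div_cancel_left d (by norm_num)] at hM
  have hL4 : C * L ^ 4 ≤ B := Nat.mul_le_mul_left _ (Nat.pow_le_pow_right hL1 (by norm_num))
  refine hC n0 n t s d D a e hn ht hnt hsq hBn hM ?_ ?_ hnext ?_ hDa hDe
  · have := (hrange 0 hd1).1
    rw [← hL]
    omega
  · intro i hi
    have h1 := hae i hi
    have h2 : 2048 * C * L ^ 4 = 2048 * (C * L ^ 4) := by ring
    rw [← hL]
    omega
  · intro i hi
    exact hend _ (hrange i hi).2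

/-- A small circuit which is correct on the slices of a chain of `d` drops of depth
`C log⁴ (n s)` has more than `log₂ d` NOT gates. -/
theorem lower2 : ∃ C : ℕ, ∀ (n s : ℕ) (D : SliceCircuits.Circuit (SliceCircuits.EdgeVar n) s)
    (R : Finset ℕ) (d : ℕ),
    C * (Nat.log 2 (n * s) + 1) ^ 8 ≤ Nat.sqrt n →
    Drops (C * (Nat.log 2 (n * s) + 1) ^ 4) R d →
    (∀ a ∈ R, n + C * d * (Nat.log 2 (n * s) + 1) ^ 8 ≤ a ∧
      a + n * Nat.sqrt n + C * d * (Nat.log 2 (n * s) + 1) ^ 8 ≤ n.choose 2) →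
    D.CorrectOn R → d < 2 ^ D.numNot := by
  obtain ⟨C, hC⟩ := lower3
  refine ⟨C, ?_⟩
  intro n s D R d hu hdrop hrange hD
  obtain ⟨a, e, hae, hnext⟩ := hdrop
  exact hC n s D d a e hu (fun i hi => (hae i hi).2.2) hnext
    (fun i hi => ⟨(hrange _ (hae i hi).1).1, (hrange _ (hae i hi).2.1).2⟩)
    (fun i hi G hG => (hD G (by rw [hG]; exact mem_coe.2 (hae i hi).1)).2)
    (fun i hi G hG => mt (hD G (by rw [hG]; exact mem_coe.2 (hae i hi).2.1)).1)

end Pool.Agent.SliceCircuits
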