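import Mathlib
import Pool.Agent.Lib.MP_0a1b52_lc_WIN.Low2
import Pool.Agent.Lib.MP_0a1b52_lc_SLICE2.Asm

/-!
Circuits of quasi-polynomial size.
-/

namespace Pool.Agent.SliceCircuits

open Finset Filter

theorem log_pow_le_sqrt' (C c : ℕ) :
    ∃ n₀ : ℕ, ∀ n ≥ n₀, C * Nat.log 2 n ^ c ≤ Nat.sqrt n := by
  have h1 : (fun x : ℝ => Real.log x ^ (2 * c)) =o[atTop] (id : ℝ → ℝ) :=
    Real.isLittleO_pow_log_id_atTop
  have h2 := h1.comp_tendsto (tendsto_natCast_atTop_atTop (R := ℝ))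
  have hl2 : 0 < Real.log 2 := Real.log_pos (by norm_num)
  have hc : (0 : ℝ) < (Real.log 2) ^ (2 * c) / ((C : ℝ) ^ 2 + 1) := by positivity
  obtain ⟨n₀, h3⟩ := eventually_atTop.1 (h2.bound hc)
  refine ⟨max n₀ 1, fun n hn => ?_⟩
  have hn0 : n₀ ≤ n := le_trans (le_max_left _ _) hn
  have hn1 : 1 ≤ n := le_trans (le_max_right _ _) hn
  have h4 := h3 n hn0
  simp only [Function.comp, id, Real.norm_eq_abs] at h4
  have hn1' : (1 : ℝ) ≤ n := by exact_mod_cast hn1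
  have h5 : 0 ≤ Real.log n := Real.log_nonneg hn1'
  rw [abs_of_nonneg (by positivity), abs_of_nonneg (by positivity)] at h4
  have h6 : (Nat.log 2 n : ℝ) * Real.log 2 ≤ Real.log n := by
    have h7 : (2 : ℝ) ^ Nat.log 2 n ≤ n := by exact_mod_cast Nat.pow_log_le_self 2 (by omega)
    have h8 := Real.log_le_log (by positivity) h7
    rwa [Real.log_pow] at h8
  have h7 : ((Nat.log 2 n : ℝ) * Real.log 2) ^ (2 * c) ≤ Real.log n ^ (2 * c) :=
    pow_le_pow_left₀ (by positivity) h6 (2 * c)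
  have h8 : ((C : ℝ) ^ 2 + 1) * (Nat.log 2 n : ℝ) ^ (2 * c) ≤ n := by
    rw [mul_pow] at h7
    have h9 : (Nat.log 2 n : ℝ) ^ (2 * c) * Real.log 2 ^ (2 * c) ≤
        Real.log 2 ^ (2 * c) / ((C : ℝ) ^ 2 + 1) * n := h7.trans h4
    have h10 : (0 : ℝ) < (C : ℝ) ^ 2 + 1 := by positivity
    have h11 : Real.log 2 ^ (2 * c) / ((C : ℝ) ^ 2 + 1) * n =
        Real.log 2 ^ (2 * c) * n / ((C : ℝ) ^ 2 + 1) := by ring
    rw [h11, le_div_iff₀ h10] at h9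
    have h12 : (0 : ℝ) < Real.log 2 ^ (2 * c) := by positivity
    have h13 : Real.log 2 ^ (2 * c) * (((C : ℝ) ^ 2 + 1) * (Nat.log 2 n : ℝ) ^ (2 * c)) ≤
        Real.log 2 ^ (2 * c) * n := by
      calc Real.log 2 ^ (2 * c) * (((C : ℝ) ^ 2 + 1) * (Nat.log 2 n : ℝ) ^ (2 * c)) =
          (Nat.log 2 n : ℝ) ^ (2 * c) * Real.log 2 ^ (2 * c) * ((C : ℝ) ^ 2 + 1) := by ring
        _ ≤ _ := h9
    exact le_of_mul_le_mul_left h13 h12
  rw [Nat.le_sqrt]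
  have h9 : ((C : ℝ) * (Nat.log 2 n : ℝ) ^ c) * ((C : ℝ) * (Nat.log 2 n : ℝ) ^ c) ≤ n := by
    have h10 : (0 : ℝ) ≤ (Nat.log 2 n : ℝ) ^ (2 * c) := by positivity
    calc ((C : ℝ) * (Nat.log 2 n : ℝ) ^ c) * ((C : ℝ) * (Nat.log 2 n : ℝ) ^ c) =
        (C : ℝ) ^ 2 * (Nat.log 2 n : ℝ) ^ (2 * c) := by ring
      _ ≤ ((C : ℝ) ^ 2 + 1) * (Nat.log 2 n : ℝ) ^ (2 * c) := by nlinarith
      _ ≤ n := h8
  exact_mod_cast h9

theorem pow_arith (l k : ℕ) (hl : 2 ≤ l) : l + l ^ k + 1 ≤ l ^ (k + 2) := by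
  have e1 : l ^ (k + 2) = l ^ k * (l * l) := by ring
  rw [e1]
  obtain ⟨p, hp⟩ : ∃ p, p = l ^ k := ⟨_, rfl⟩
  rw [← hp]
  have hll : 2 * l ≤ l * l := Nat.mul_le_mul_right l hl
  rcases Nat.eq_zero_or_pos k with rfl | hk
  · rw [pow_zero] at hp
    rw [hp, one_mul]
    omega
  · have h1 : l ≤ p := by
      rw [hp]
      exact Nat.le_self_pow (by omega) l
    have h2 : p * 4 ≤ p * (l * l) := Nat.mul_le_mul_left p (by omega)
    omega

/-- The logarithm of the size of a circuit of quasi-polynomial size. -/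
theorem log_size' (n s k : ℕ) (hn : 4 ≤ n) (hs : s ≤ 2 ^ Nat.log 2 n ^ k) :
    Nat.log 2 (n * s) + 1 ≤ Nat.log 2 n ^ (k + 2) := by
  have h1 : 2 ≤ Nat.log 2 n := Nat.le_log_of_pow_le (by norm_num) (by simpa using hn)
  have h2 : n < 2 ^ (Nat.log 2 n + 1) := Nat.lt_pow_succ_log_self (by norm_num) n
  have h3 := pow_arith (Nat.log 2 n) k h1
  rcases Nat.eq_zero_or_pos (n * s) with h0 | h0
  · rw [h0, Nat.log_zero_right]
    omega
  · have h4 : n * s < 2 ^ (Nat.log 2 n + 1 + Nat.log 2 n ^ k) := by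
      rw [pow_add]
      have hs0 : 0 < s := Nat.pos_of_ne_zero (by rintro rfl; simp at h0)
      calc n * s < 2 ^ (Nat.log 2 n + 1) * s := Nat.mul_lt_mul_of_pos_right h2 hs0
        _ ≤ _ := Nat.mul_le_mul_left _ hs
    have h5 : Nat.log 2 (n * s) < Nat.log 2 n + 1 + Nat.log 2 n ^ k :=
      Nat.log_lt_of_lt_pow (by omega) h4
    omega

/-- Numerical facts for large `n`. -/
theorem choose_big (n : ℕ) (hn : 4096 ≤ n) : 16 * (n * Nat.sqrt n) ≤ n.choose 2 ∧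
    16 * n ≤ n.choose 2 := by
  have h1 := CliqueModules.two_mul_choose_two n
  have h2 : 64 ≤ Nat.sqrt n := Nat.le_sqrt.2 (by omega)
  have h3 : n * Nat.sqrt n * 64 ≤ n * n := by
    calc n * Nat.sqrt n * 64 = n * (Nat.sqrt n * 64) := by ring
      _ ≤ n * (Nat.sqrt n * Nat.sqrt n) := Nat.mul_le_mul_left _ (Nat.mul_le_mul_left _ h2)
      _ ≤ n * n := Nat.mul_le_mul_left _ (Nat.sqrt_le n)
  have h4 : n * (n - 1) + n = n * n := by
    have : n - 1 + 1 = n := by omega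
    calc n * (n - 1) + n = n * (n - 1 + 1) := by ring
      _ = n * n := by rw [this]
  have h5 : n * 64 ≤ n * n := Nat.mul_le_mul_left _ (by omega)
  have h6 : n * 64 ≤ n * Nat.sqrt n * 64 := by
    have : n * 1 ≤ n * Nat.sqrt n := Nat.mul_le_mul_left _ (by omega)
    omega
  constructor <;> omega

/-- The lower bound. -/
theorem qp_lower (R : ℕ → Finset ℕ) (hR : Middle R) (h : ℕ → ℕ)
    (hP : QuasiPolySizeOn (fun n => R n) h) :
    ∃ c n₀ : ℕ, ∀ n ≥ n₀, ¬ Drops (Nat.log 2 n ^ c) (R n) (2 ^ h n) := by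
  obtain ⟨C, hC⟩ := lower2
  obtain ⟨k, N, hk⟩ := hP
  obtain ⟨n₁, h1⟩ := hR
  obtain ⟨n₂, h2⟩ := log_pow_le_sqrt' C (8 * (k + 2))
  obtain ⟨K, hK⟩ : ∃ K, K = 2 ^ (64 * C + 1) := ⟨_, rfl⟩
  refine ⟨8 * (k + 2) + 1, n₁ + n₂ + N + 4096 + K, fun n hn hdr => ?_⟩
  have hn4 : 4096 ≤ n := by omega
  have hl : 64 * C + 1 ≤ Nat.log 2 n :=
    Nat.le_log_of_pow_le (by norm_num) (by rw [← hK]; omega)
  obtain ⟨s, hs, D, hD1, hD2⟩ := hk n (by omega)
  obtain ⟨-, hrange⟩ := h1 n (by omega)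
  have hlog := log_size' n s k (by omega) hs
  have hsq := h2 n (by omega)
  have hl1 : 1 ≤ Nat.log 2 n := by omega
  set l := Nat.log 2 n with hldef
  set L := Nat.log 2 (n * s) + 1 with hLdef
  have hL1 : 1 ≤ L := by omega
  have hL8 : L ^ 8 ≤ l ^ (8 * (k + 2)) := by
    calc L ^ 8 ≤ (l ^ (k + 2)) ^ 8 := Nat.pow_le_pow_left hlog 8
      _ = l ^ (8 * (k + 2)) := by rw [← pow_mul, mul_comm]
  have hL4 : L ^ 4 ≤ L ^ 8 := Nat.pow_le_pow_right hL1 (by norm_num)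
  have hg : 64 * (C * L ^ 8) ≤ l ^ (8 * (k + 2) + 1) := by
    calc 64 * (C * L ^ 8) = L ^ 8 * (64 * C) := by ring
      _ ≤ l ^ (8 * (k + 2)) * l := Nat.mul_le_mul hL8 (by omega)
      _ = _ := (pow_succ _ _).symm
  have hsub : R n ⊆ range (n.choose 2 + 1) := by
    intro a ha
    have := (hrange a ha).2
    exact mem_range.2 (by omega)
  have h3 := drops_range (hdr.mono_R hsub)
  have h4 : 64 * (C * 2 ^ h n * L ^ 8) ≤ n.choose 2 + 1 := by
    calc 64 * (C * 2 ^ h n * L ^ 8) = 64 * (C * L ^ 8) * 2 ^ h n := by ring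
      _ ≤ (l ^ (8 * (k + 2) + 1) + 1) * 2 ^ h n := Nat.mul_le_mul_right _ (by omega)
      _ ≤ _ := h3
  obtain ⟨h5, h6⟩ := choose_big n hn4
  have h7 := hC n s D (R n) (2 ^ h n) ?_ ?_ ?_ hD2
  · have h8 : 2 ^ D.numNot ≤ 2 ^ h n := Nat.pow_le_pow_right (by norm_num) hD1
    omega
  · exact (Nat.mul_le_mul_left C hL8).trans hsq
  · refine hdr.mono_g ?_
    calc C * L ^ 4 ≤ 64 * (C * L ^ 8) := by
          have := Nat.mul_le_mul_left C hL4
          omega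
      _ ≤ _ := hg
  · intro a ha
    obtain ⟨h8, h9⟩ := hrange a ha
    rw [← hLdef]
    constructor <;> omega

/-- The size of the transformed circuits. -/
theorem qp_size (l K k c n s : ℕ) (hl : 2 ≤ l) (hn : n < 2 ^ (l + 1)) (hs : s ≤ 2 ^ l ^ k)
    (hK : K ≤ l ^ c) :
    (2 * K + 30) * 2 ^ (K + 3) * (n + s) ^ (2 * K + 6) ≤ 2 ^ l ^ (k + c + 7) := by
  have h0 := pow_arith l k hl
  have h1 : n + s ≤ 2 ^ l ^ (k + 2) := by
    have h2 : 2 ^ (l + 1) ≤ 2 ^ (l + l ^ k) := by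
      refine Nat.pow_le_pow_right (by norm_num) ?_
      have : 1 ≤ l ^ k := Nat.one_le_pow _ _ (by omega)
      omega
    have h3 : 2 ^ l ^ k ≤ 2 ^ (l + l ^ k) := Nat.pow_le_pow_right (by norm_num) (by omega)
    calc n + s ≤ 2 ^ (l + l ^ k) + 2 ^ (l + l ^ k) := by omega
      _ = 2 ^ (l + l ^ k + 1) := by ring
      _ ≤ _ := Nat.pow_le_pow_right (by norm_num) h0
  have h2 : 2 * K + 30 ≤ 2 ^ (K + 5) := by
    have h3 : K < 2 ^ K := Nat.lt_two_pow_self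
    have h4 : 2 ^ (K + 5) = 32 * 2 ^ K := by ring
    omega
  obtain ⟨P, hP⟩ : ∃ P, P = l ^ (k + 2) := ⟨_, rfl⟩
  have hP1 : 1 ≤ P := by
    rw [hP]
    exact Nat.one_le_pow _ _ (by omega)
  obtain ⟨Q, hQ⟩ : ∃ Q, Q = l ^ c := ⟨_, rfl⟩
  have hQ1 : 1 ≤ Q := by
    rw [hQ]
    exact Nat.one_le_pow _ _ (by omega)
  calc (2 * K + 30) * 2 ^ (K + 3) * (n + s) ^ (2 * K + 6)
      ≤ 2 ^ (K + 5) * 2 ^ (K + 3) * (2 ^ l ^ (k + 2)) ^ (2 * K + 6) :=
        Nat.mul_le_mul (Nat.mul_le_mul_right _ h2) (Nat.pow_le_pow_left h1 _)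
    _ = 2 ^ (K + 5 + (K + 3) + l ^ (k + 2) * (2 * K + 6)) := by
        rw [← pow_mul, ← pow_add, ← pow_add]
    _ ≤ 2 ^ l ^ (k + c + 7) := by
        refine Nat.pow_le_pow_right (by norm_num) ?_
        have e1 : l ^ (k + c + 7) = P * (l ^ 5 * Q) := by rw [hP, hQ]; ring
        have h5 : 2 ^ 5 ≤ l ^ 5 := Nat.pow_le_pow_left hl 5
        rw [e1, ← hP]
        rw [← hQ] at hK
        calc K + 5 + (K + 3) + P * (2 * K + 6) ≤ P * (2 * K + 8) + P * (2 * K + 6) := by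
              have : 1 * (2 * K + 8) ≤ P * (2 * K + 8) := Nat.mul_le_mul_right _ hP1
              omega
          _ = P * (4 * K + 14) := by ring
          _ ≤ P * (32 * Q) := Nat.mul_le_mul_left _ (by omega)
          _ ≤ P * (l ^ 5 * Q) := Nat.mul_le_mul_left _ (Nat.mul_le_mul_right _ h5)

/-- The upper bound. -/
theorem qp_upper (R : ℕ → Finset ℕ) (h : ℕ → ℕ) (hP : QuasiPolySize)
    (hh : ∃ c n₀ : ℕ, ∀ n ≥ n₀, ¬ Drops (Nat.log 2 n ^ c) (R n) (2 ^ h n)) :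
    QuasiPolySizeOn (fun n => R n) h := by
  obtain ⟨k, N, hk⟩ := hP
  obtain ⟨c, n₀, h0⟩ := hh
  refine ⟨k + c + 7, n₀ + N + 4, fun n hn => ?_⟩
  obtain ⟨s, hs, D, hD⟩ := hk n (by omega)
  have hn4 : 4 ≤ n := by omega
  obtain ⟨s', hs', D', hD1, hD2⟩ := upper2 (Nat.log 2 n ^ c) n s D (R n) (h n)
    (fun G _ => hD G (Set.mem_univ _)) (fun hdr => h0 n (by omega) (hdr.mono_g (by omega)))
  refine ⟨s', hs'.trans (qp_size _ _ k c n s ?_ (Nat.lt_pow_succ_log_self (by norm_num) n) hs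
    le_rfl), D', hD1, hD2⟩
  exact Nat.le_log_of_pow_le (by norm_num) (by simpa using hn4)

/-- The size in the self-reduction. -/
theorem qp_self_size (K k n m s s' : ℕ) (hm : K + 16 ≤ m) (hn : n = (4 * m + K) * (4 * m + K))
    (hs : s ≤ 2 ^ Nat.log 2 n ^ k) (hs' : s' ≤ 10 * (n + s) ^ 2) :
    s' ≤ 2 ^ Nat.log 2 m ^ (2 * (k + 2) + 3) := by
  have hnK : 4 * m + K ≤ n := by
    rw [hn]
    exact Nat.le_mul_self _
  set l := Nat.log 2 m with hl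
  have hl4 : 4 ≤ l := Nat.le_log_of_pow_le (by norm_num) (by omega)
  have hm1 : m < 2 ^ (l + 1) := Nat.lt_pow_succ_log_self (by norm_num) m
  have hn1 : n < 2 ^ (2 * l + 8) := by
    have h3 : 4 * m + K < 2 ^ (l + 4) := by
      have h4 : 2 ^ (l + 4) = 8 * 2 ^ (l + 1) := by ring
      omega
    calc n = (4 * m + K) * (4 * m + K) := hn
      _ < 2 ^ (l + 4) * 2 ^ (l + 4) := Nat.mul_lt_mul'' h3 h3
      _ = 2 ^ (2 * l + 8) := by rw [← pow_add]; congr 1; ring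
  have hll : 2 * l + 8 ≤ l * l := by
    have := Nat.mul_le_mul_right l hl4
    omega
  have hlogn : Nat.log 2 n ≤ l * l := by
    have h3 : Nat.log 2 n < 2 * l + 8 := Nat.log_lt_of_lt_pow (by omega) hn1
    omega
  have hs1 : s ≤ 2 ^ (l * l) ^ k :=
    hs.trans (Nat.pow_le_pow_right (by norm_num) (Nat.pow_le_pow_left hlogn k))
  have hn2 : n ≤ 2 ^ (l * l) := hn1.le.trans (Nat.pow_le_pow_right (by norm_num) hll)
  have h3 : l * l + (l * l) ^ k + 1 ≤ (l * l) ^ (k + 2) := pow_arith (l * l) k (by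
    have := Nat.mul_le_mul hl4 hl4
    omega)
  have h4 : n + s ≤ 2 ^ (l * l) ^ (k + 2) := by
    have h5 : 2 ^ (l * l) ≤ 2 ^ (l * l + (l * l) ^ k) :=
      Nat.pow_le_pow_right (by norm_num) (by omega)
    have h6 : 2 ^ (l * l) ^ k ≤ 2 ^ (l * l + (l * l) ^ k) :=
      Nat.pow_le_pow_right (by norm_num) (by omega)
    calc n + s ≤ 2 ^ (l * l + (l * l) ^ k) + 2 ^ (l * l + (l * l) ^ k) := by omega
      _ = 2 ^ (l * l + (l * l) ^ k + 1) := by ring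
      _ ≤ _ := Nat.pow_le_pow_right (by norm_num) h3
  have e1 : (l * l) ^ (k + 2) = l ^ (2 * (k + 2)) := by
    rw [← pow_two, ← pow_mul]
  rw [e1] at h4
  obtain ⟨P, hP⟩ : ∃ P, P = l ^ (2 * (k + 2)) := ⟨_, rfl⟩
  have hP1 : 1 ≤ P := by
    rw [hP]
    exact Nat.one_le_pow _ _ (by omega)
  calc s' ≤ 10 * (n + s) ^ 2 := hs'
    _ ≤ 2 ^ 4 * (2 ^ l ^ (2 * (k + 2))) ^ 2 :=
        Nat.mul_le_mul (by norm_num) (Nat.pow_le_pow_left h4 2)
    _ = 2 ^ (4 + l ^ (2 * (k + 2)) * 2) := by rw [← pow_mul, ← pow_add]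
    _ ≤ 2 ^ l ^ (2 * (k + 2) + 3) := by
        refine Nat.pow_le_pow_right (by norm_num) ?_
        have e2 : l ^ (2 * (k + 2) + 3) = P * l ^ 3 := by rw [hP]; ring
        have h5 : 4 ^ 3 ≤ l ^ 3 := Nat.pow_le_pow_left hl4 3
        rw [e2, ← hP]
        calc 4 + P * 2 ≤ P * 4 ^ 3 := by omega
          _ ≤ P * l ^ 3 := Nat.mul_le_mul_left _ h5

/-- The self-reduction. -/
theorem qp_self (R : ℕ → Set ℕ)
    (hR : ∃ n₀ : ℕ, ∀ n ≥ n₀, ∃ a ∈ R n, n ≤ a ∧ a + n * Nat.sqrt n ≤ n.choose 2)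
    (h : ℕ → ℕ) (hP : QuasiPolySizeOn R h) : QuasiPolySize := by
  obtain ⟨k, N, hk⟩ := hP
  obtain ⟨n₀, h0⟩ := hR
  obtain ⟨K, hK⟩ : ∃ K, K = n₀ + N + 16 := ⟨_, rfl⟩
  refine ⟨2 * (k + 2) + 3, K + 16, fun m hm => ?_⟩
  obtain ⟨n, hn⟩ : ∃ n, n = (4 * m + K) * (4 * m + K) := ⟨_, rfl⟩
  have hsq : Nat.sqrt n = 4 * m + K := by
    rw [hn]
    exact Nat.sqrt_eq _
  have hnK : 4 * m + K ≤ n := by
    rw [hn]
    exact Nat.le_mul_self _
  obtain ⟨s, hs, D, -, hD⟩ := hk n (by omega)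
  obtain ⟨a, ha, h1, h2⟩ := h0 n (by omega)
  obtain ⟨s', hs', D', hD'⟩ := self_reduction n s D a m (by omega) (by omega) h1 h2
    (fun G hG => hD G (by rw [Set.mem_singleton_iff.1 hG]; exact ha))
  exact ⟨s', qp_self_size K k n m s s' hm hn hs hs', D', hD'⟩

theorem middle_central {n a : ℕ} (hn : 4096 ≤ n) (h1 : n.choose 2 ≤ 4 * a)
    (h2 : 4 * a ≤ 3 * n.choose 2) : n ≤ a ∧ a + n * Nat.sqrt n ≤ n.choose 2 := by
  obtain ⟨h5, h6⟩ := choose_big n hn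
  constructor <;> omega

/-- The exact theorem for sets of slices in the middle. -/
theorem qp_middle (R : ℕ → Finset ℕ) (hR : Middle R) (h : ℕ → ℕ) :
    QuasiPolySizeOn (fun n => R n) h ↔
      (∃ c n₀ : ℕ, ∀ n ≥ n₀, ¬ Drops (Nat.log 2 n ^ c) (R n) (2 ^ h n)) ∧ QuasiPolySize := by
  constructor
  · intro hP
    refine ⟨qp_lower R hR h hP, qp_self _ ?_ h hP⟩
    obtain ⟨n₀, h0⟩ := hR
    refine ⟨n₀ + 4096, fun n hn => ?_⟩
    obtain ⟨⟨a, ha⟩, h1⟩ := h0 n (by omega)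
    exact ⟨a, ha, middle_central (by omega) (h1 a ha).1 (h1 a ha).2⟩
  · rintro ⟨h1, h2⟩
    exact qp_upper R h h2 h1

/-- The exact theorem for all slices. -/
theorem qp_all (h : ℕ → ℕ) :
    QuasiPolySizeOn (fun _ => Set.univ) h ↔
      (∃ c n₀ : ℕ, ∀ n ≥ n₀, n.choose 2 ≤ 2 ^ h n * Nat.log 2 n ^ c) ∧ QuasiPolySize := by
  constructor
  · intro hP
    have hmid : Middle fun n => (range (n.choose 2 + 1)).filter fun a =>
        n.choose 2 ≤ 4 * a ∧ 4 * a ≤ 3 * n.choose 2 := by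
      refine ⟨4096, fun n hn => ⟨?_, fun a ha => (mem_filter.1 ha).2⟩⟩
      have h5 := (choose_big n hn).2
      refine ⟨n.choose 2 / 2, mem_filter.2 ⟨mem_range.2 (by omega), by omega, by omega⟩⟩
    obtain ⟨c, n₀, hc⟩ := qp_lower _ hmid h (by
      obtain ⟨k, N, hk⟩ := hP
      refine ⟨k, N, fun n hn => ?_⟩
      obtain ⟨s, hs, D, h1, h2⟩ := hk n hn
      exact ⟨s, hs, D, h1, fun G _ => h2 G (Set.mem_univ _)⟩)
    refine ⟨⟨c + 4, n₀ + 4096, fun n hn => ?_⟩, qp_self _ ?_ h hP⟩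
    · by_contra hcon
      have hl : 2 ≤ Nat.log 2 n :=
        Nat.le_log_of_pow_le (by norm_num) (show 2 ^ 2 ≤ n by norm_num; omega)
      refine hc n (by omega) ?_
      set l := Nat.log 2 n with hldef
      have h16 : 2 ^ 4 ≤ l ^ 4 := Nat.pow_le_pow_left hl 4
      have hg1 : 1 ≤ l ^ c := Nat.one_le_pow _ _ (by omega)
      have h3 : 16 * (2 ^ h n * l ^ c) < n.choose 2 := by
        calc 16 * (2 ^ h n * l ^ c) ≤ l ^ 4 * (2 ^ h n * l ^ c) := Nat.mul_le_mul_right _ h16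
          _ = 2 ^ h n * l ^ (c + 4) := by ring
          _ < n.choose 2 := not_le.1 hcon
      obtain ⟨g, hg⟩ : ∃ g, g = l ^ c := ⟨_, rfl⟩
      obtain ⟨d, hd⟩ : ∃ d, d = 2 ^ h n := ⟨_, rfl⟩
      rw [← hg] at hg1 h3 ⊢
      rw [← hd] at h3 ⊢
      have hlin : ∀ i < d, i * (g + 1) + g ≤ 2 * (d * g) := by
        intro i hi
        have h5 : (i + 1) * (g + 1) ≤ d * (g + 1) := Nat.mul_le_mul_right _ hi
        have h6 : d * (g + 1) ≤ d * (2 * g) := Nat.mul_le_mul_left _ (by omega)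
        have e1 : (i + 1) * (g + 1) = i * (g + 1) + (g + 1) := by ring
        have e2 : d * (2 * g) = 2 * (d * g) := by ring
        omega
      refine ⟨fun i => n.choose 2 / 4 + 1 + i * (g + 1),
        fun i => n.choose 2 / 4 + 1 + i * (g + 1) + g, fun i hi => ?_, fun i hi => ?_⟩
      · have h4 := hlin i hi
        dsimp only
        refine ⟨mem_filter.2 ⟨mem_range.2 ?_, ?_, ?_⟩, mem_filter.2 ⟨mem_range.2 ?_, ?_, ?_⟩,
          le_rfl⟩ <;> omega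
      · have e1 : (i + 1) * (g + 1) = i * (g + 1) + (g + 1) := by ring
        show n.choose 2 / 4 + 1 + i * (g + 1) + g < n.choose 2 / 4 + 1 + (i + 1) * (g + 1)
        omega
    · refine ⟨4096, fun n hn => ⟨n, Set.mem_univ _, le_rfl, ?_⟩⟩
      have h5 := choose_big n hn
      omega
  · rintro ⟨⟨c, n₀, h1⟩, h2⟩
    obtain ⟨k, N, hk⟩ := qp_upper (fun n => range (n.choose 2 + 1)) h h2
      ⟨c + 1, n₀ + 4096, fun n hn hdr => by
        have h3 := drops_range hdr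
        have h4 := h1 n (by omega)
        have hl : 2 ≤ Nat.log 2 n :=
          Nat.le_log_of_pow_le (by norm_num) (show 2 ^ 2 ≤ n by norm_num; omega)
        have h5 : 2 ^ h n * Nat.log 2 n ^ c * 2 ≤ 2 ^ h n * Nat.log 2 n ^ (c + 1) := by
          rw [pow_succ, ← mul_assoc]
          exact Nat.mul_le_mul_left _ hl
        have h6 : (Nat.log 2 n ^ (c + 1) + 1) * 2 ^ h n =
            2 ^ h n * Nat.log 2 n ^ (c + 1) + 2 ^ h n := by ring
        have h7 := (choose_big n (by omega)).2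
        have h8 : 0 < 2 ^ h n := by positivity
        omega⟩
    refine ⟨k, N, fun n hn => ?_⟩
    obtain ⟨s, hs, D, h3, h4⟩ := hk n hn
    refine ⟨s, hs, D, h3, ?_⟩
    rw [correctOn_iff] at h4 ⊢
    intro x _
    exact h4 x (mem_coe.2 (mem_range.2 (Nat.lt_succ_of_le (wt_le_choose x))))

end Pool.Agent.SliceCircuits
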