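import Mathlib
import Pool.Agent.Lib.MP_0a1b52_lc_WIN.QP
import Pool.Agent.Lib.MP_0a1b52_lc_SLICE2.DistAsym

/-!
Monotone circuits which separate two slices.
-/

namespace Pool.Agent.SliceCircuits

open Finset

/-- There are a constant `k` and, for all large `n`, a circuit with at most `2 ^ ((log₂ n) ^ k)`
gates, none of them a NOT gate, which accepts all graphs with `a n` edges and a clique with more than
`√n` vertices, and rejects all graphs with `b n` edges and without such cliques. -/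
def QuasiPolySep (a b : ℕ → ℕ) : Prop :=
  ∃ k N : ℕ, ∀ n ≥ N, ∃ s ≤ 2 ^ Nat.log 2 n ^ k, ∃ D : Circuit (EdgeVar n) s,
    D.numNot = 0 ∧ D.Separates (a n) (b n)

/-- A small monotone circuit does not separate two slices at a distance of at least
`C log⁴ (n s)`. -/
theorem sep_lower : ∃ C : ℕ, ∀ (n s : ℕ) (D : Circuit (EdgeVar n) s) (a b : ℕ),
    C * (Nat.log 2 (n * s) + 1) ^ 8 ≤ Nat.sqrt n →
    a + C * (Nat.log 2 (n * s) + 1) ^ 4 ≤ b →
    n + C * (Nat.log 2 (n * s) + 1) ^ 8 ≤ a →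
    b + n * Nat.sqrt n + C * (Nat.log 2 (n * s) + 1) ^ 8 ≤ n.choose 2 →
    D.numNot = 0 → ¬ D.Separates a b := by
  obtain ⟨C, hC⟩ := lower3
  refine ⟨C, fun n s D a b h1 h2 h3 h4 h5 hD => ?_⟩
  have h6 := hC n s D 1 (fun _ => a) (fun _ => b) h1 (fun _ _ => h2)
    (fun i hi => absurd hi (by omega))
    (fun _ _ => ⟨by rw [Nat.mul_one]; exact h3, by rw [Nat.mul_one]; exact h4⟩)
    (fun _ _ G => (hD G).1) (fun _ _ G => (hD G).2)
  rw [h5] at h6
  omega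

/-- The unconditional part for polynomial size. -/
theorem poly_sep_lower (a b : ℕ → ℕ)
    (hab : ∀ C : ℕ, ∃ n₀ : ℕ, ∀ n ≥ n₀, n + C * Nat.log 2 n ^ 8 ≤ a n ∧
      b n + n * Nat.sqrt n + C * Nat.log 2 n ^ 8 ≤ n.choose 2)
    (hP : PolySep a b) : ∃ C n₀ : ℕ, ∀ n ≥ n₀, b n < a n + C * Nat.log 2 n ^ 4 := by
  obtain ⟨C, hC⟩ := sep_lower
  obtain ⟨k, N, hk⟩ := hP
  obtain ⟨n₁, h1⟩ := hab (C * (2 * k + 2) ^ 8)
  obtain ⟨n₂, h2⟩ := log_pow_le_sqrt (C * (2 * k + 2) ^ 8)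
  refine ⟨C * (2 * k + 2) ^ 4, n₁ + n₂ + N + 2, fun n hn => ?_⟩
  by_contra hcon
  have hn3 : 2 ≤ n := by omega
  obtain ⟨s, hs, D, hD1, hD2⟩ := hk n (by omega)
  obtain ⟨h3, h4⟩ := h1 n (by omega)
  have hlog := log_size n s k hn3 hs
  set L := Nat.log 2 (n * s) + 1 with hLdef
  have hL8 : C * L ^ 8 ≤ C * (2 * k + 2) ^ 8 * Nat.log 2 n ^ 8 := by
    rw [mul_assoc, ← mul_pow]
    exact Nat.mul_le_mul_left _ (Nat.pow_le_pow_left hlog 8)
  have hL4 : C * L ^ 4 ≤ C * (2 * k + 2) ^ 4 * Nat.log 2 n ^ 4 := by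
    rw [mul_assoc, ← mul_pow]
    exact Nat.mul_le_mul_left _ (Nat.pow_le_pow_left hlog 4)
  refine hC n s D (a n) (b n) ?_ ?_ ?_ ?_ hD1 hD2
  · rw [← hLdef]
    exact hL8.trans (h2 n (by omega))
  · rw [← hLdef]
    omega
  · rw [← hLdef]
    omega
  · rw [← hLdef]
    omega

/-- The exact theorem for monotone circuits of quasi-polynomial size which separate two slices. -/
theorem qp_sep (a b : ℕ → ℕ)
    (hab : ∃ n₀ : ℕ, ∀ n ≥ n₀, 2 * n ≤ a n ∧ a n ≤ b n ∧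
      b n + 2 * (n * Nat.sqrt n) ≤ n.choose 2) :
    QuasiPolySep a b ↔
      (∃ c n₀ : ℕ, ∀ n ≥ n₀, b n ≤ a n + Nat.log 2 n ^ c) ∧ QuasiPolySize := by
  obtain ⟨n₀, h0⟩ := hab
  constructor
  · rintro ⟨k, N, hk⟩
    constructor
    · obtain ⟨C, hC⟩ := sep_lower
      obtain ⟨n₂, h2⟩ := log_pow_le_sqrt' C (8 * (k + 2))
      obtain ⟨K, hK⟩ : ∃ K, K = 2 ^ (C + 1) := ⟨_, rfl⟩
      refine ⟨8 * (k + 2) + 1, n₀ + n₂ + N + 4 + K, fun n hn => ?_⟩
      by_contra hcon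
      have hl : C + 1 ≤ Nat.log 2 n :=
        Nat.le_log_of_pow_le (by norm_num) (by rw [← hK]; omega)
      obtain ⟨s, hs, D, hD1, hD2⟩ := hk n (by omega)
      obtain ⟨h3, h4, h5⟩ := h0 n (by omega)
      have hlog := log_size' n s k (by omega) hs
      have hsq := h2 n (by omega)
      set l := Nat.log 2 n with hldef
      set L := Nat.log 2 (n * s) + 1 with hLdef
      have hL1 : 1 ≤ L := by omega
      have hL8 : L ^ 8 ≤ l ^ (8 * (k + 2)) := by
        calc L ^ 8 ≤ (l ^ (k + 2)) ^ 8 := Nat.pow_le_pow_left hlog 8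
          _ = l ^ (8 * (k + 2)) := by rw [← pow_mul, mul_comm]
      have hL4 : L ^ 4 ≤ L ^ 8 := Nat.pow_le_pow_right hL1 (by norm_num)
      have hg : C * L ^ 4 ≤ l ^ (8 * (k + 2) + 1) := by
        calc C * L ^ 4 ≤ C * L ^ 8 := Nat.mul_le_mul_left C hL4
          _ = L ^ 8 * C := Nat.mul_comm _ _
          _ ≤ l ^ (8 * (k + 2)) * l := Nat.mul_le_mul hL8 (by omega)
          _ = _ := (pow_succ _ _).symm
      have h8 : C * L ^ 8 ≤ Nat.sqrt n := (Nat.mul_le_mul_left C hL8).trans hsq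
      have h9 : Nat.sqrt n ≤ n := Nat.sqrt_le_self n
      have h10 : n ≤ n * Nat.sqrt n := Nat.le_mul_of_pos_right _ (Nat.sqrt_pos.2 (by omega))
      refine hC n s D (a n) (b n) h8 ?_ ?_ ?_ hD1 hD2
      · rw [← hLdef]
        omega
      · rw [← hLdef]
        omega
      · rw [← hLdef]
        omega
    · obtain ⟨K, hK⟩ : ∃ K, K = n₀ + N + 16 := ⟨_, rfl⟩
      refine ⟨2 * (k + 2) + 3, K + 16, fun m hm => ?_⟩
      obtain ⟨n, hn⟩ : ∃ n, n = (4 * m + K) * (4 * m + K) := ⟨_, rfl⟩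
      have hsq : Nat.sqrt n = 4 * m + K := by
        rw [hn]
        exact Nat.sqrt_eq _
      have hnK : 4 * m + K ≤ n := by
        rw [hn]
        exact Nat.le_mul_self _
      obtain ⟨s, hs, D, hD1, hD⟩ := hk n (by omega)
      obtain ⟨h1, h2, h3⟩ := h0 n (by omega)
      obtain ⟨s', hs', D', hD'⟩ := self_reduction_sep n s D (a n) (b n) m (by omega) (by omega)
        (by omega) h2 (by omega) hD1 hD
      exact ⟨s', qp_self_size K k n m s s' hm hn hs hs', D', hD'⟩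
  · rintro ⟨⟨c, n₁, h1⟩, hQ⟩
    obtain ⟨k, N, hk⟩ := qp_upper (fun n => {a n, b n}) (fun _ => 0) hQ
      ⟨c + 1, n₀ + n₁ + 4, fun n hn hdr => by
        rw [pow_zero] at hdr
        have hl : 2 ≤ Nat.log 2 n :=
          Nat.le_log_of_pow_le (by norm_num) (show 2 ^ 2 ≤ n by norm_num; omega)
        have h2 : Nat.log 2 n ^ c + 1 ≤ Nat.log 2 n ^ (c + 1) := by
          have h3 : 1 ≤ Nat.log 2 n ^ c := Nat.one_le_pow _ _ (by omega)
          have h4 : Nat.log 2 n ^ c * 2 ≤ Nat.log 2 n ^ (c + 1) := by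
            rw [pow_succ]
            exact Nat.mul_le_mul_left _ hl
          omega
        exact not_drops_pair (h0 n (by omega)).2.1 (h1 n (by omega)) (hdr.mono_g h2)⟩
    refine ⟨k, N, fun n hn => ?_⟩
    obtain ⟨s, hs, D, hD1, hD2⟩ := hk n hn
    refine ⟨s, hs, D, Nat.le_zero.1 hD1, hD2.separates ?_ ?_⟩
    · simp
    · simp

end Pool.Agent.SliceCircuits
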