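import Mathlib
import Pool.Agent.Lib.MP_0a1b52_lc_WIN.QPDist
import Pool.Agent.Lib.MP_0a1b52_lc_SLICE2.Drops2

/-!
The trade-off between the size and the number of NOT gates, for each `n`.
-/

namespace Pool.Agent.SliceCircuits

open Finset

/-- The lower bound: a circuit for `CLIQUE_n` with `s` gates has more than
`log₂ (n(n-1)/2) - 8 log₂ log₂ (n s) - O(1)` NOT gates. -/
theorem all_lower : ∃ C : ℕ, ∀ (n s : ℕ) (D : Circuit (EdgeVar n) s),
    C * (Nat.log 2 (n * s) + 1) ^ 8 ≤ Nat.sqrt n → D.CorrectOn Set.univ →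
    n.choose 2 < 2 ^ D.numNot * (C * (Nat.log 2 (n * s) + 1) ^ 8) := by
  obtain ⟨C, hC⟩ := lower2
  refine ⟨64 * C + 64, fun n s D h1 hD => ?_⟩
  by_contra hcon
  set L := Nat.log 2 (n * s) + 1 with hL
  have hL1 : 1 ≤ L := by omega
  have hL8 : 1 ≤ L ^ 8 := Nat.one_le_pow _ _ hL1
  have hL4 : L ^ 4 ≤ L ^ 8 := Nat.pow_le_pow_right hL1 (by norm_num)
  obtain ⟨B, hB⟩ : ∃ B, B = L ^ 8 := ⟨_, rfl⟩
  obtain ⟨E, hE⟩ : ∃ E, E = 2 ^ D.numNot := ⟨_, rfl⟩
  have hE1 : 1 ≤ E := by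
    rw [hE]
    exact Nat.one_le_two_pow
  rw [← hB] at hL8 hL4 h1 hcon
  rw [← hE] at hcon
  have e1 : (64 * C + 64) * B = 64 * (C * B) + 64 * B := by ring
  rw [e1] at h1
  have e2 : E * ((64 * C + 64) * B) = 64 * (E * (C * B)) + 64 * (E * B) := by ring
  rw [e2] at hcon
  have hsq : 64 ≤ Nat.sqrt n := by omega
  have hn : 4096 ≤ n := by
    have h2 := Nat.sqrt_le n
    have h3 := Nat.mul_le_mul hsq hsq
    omega
  obtain ⟨h5, h6⟩ := choose_big n hn
  have e3 : C * E * B = E * (C * B) := by ring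
  have hEB : E ≤ E * B := Nat.le_mul_of_pos_right _ hL8
  have h7 : C * L ^ 4 ≤ C * B := Nat.mul_le_mul_left C hL4
  have h8 : E * (C * L ^ 4 + 1) ≤ E * (C * B) + E := by
    calc E * (C * L ^ 4 + 1) = E * (C * L ^ 4) + E := by ring
      _ ≤ _ := Nat.add_le_add_right (Nat.mul_le_mul_left E h7) _
  have h9 : E < 2 ^ D.numNot := by
    refine hC n s D (Icc (n + E * (C * B)) (n + E * (C * B) + (E * (C * L ^ 4 + 1)))) E ?_
      ?_ ?_ (fun G _ => hD G (Set.mem_univ _))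
    · rw [← hL, ← hB]
      omega
    · rw [← hL]
      exact drops_Icc (Nat.le_succ _)
    · intro a ha
      obtain ⟨h9, h10⟩ := mem_Icc.1 ha
      rw [← hL, ← hB, e3]
      constructor
      · exact h9
      · omega
  omega

/-- The upper bound: a circuit for `CLIQUE_n` can be transformed into a circuit with at most `h` NOT
gates. -/
theorem all_upper (n s h : ℕ) (D : Circuit (EdgeVar n) s) (hn : 1 ≤ n)
    (hD : D.CorrectOn Set.univ) :
    ∃ s' ≤ (n + s) ^ (14 * (n.choose 2 / 2 ^ h + 1)), ∃ D' : Circuit (EdgeVar n) s',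
      D'.numNot ≤ h ∧ D'.CorrectOn Set.univ := by
  have hs : 1 ≤ s := by
    have := D.out.2
    omega
  obtain ⟨K, hK⟩ : ∃ K, K = n.choose 2 / 2 ^ h := ⟨_, rfl⟩
  have h0 : 0 < 2 ^ h := by positivity
  have h1 : n.choose 2 < (K + 1) * 2 ^ h := by
    rw [hK, add_mul, one_mul]
    exact Nat.lt_div_mul_add h0
  obtain ⟨s', hs', D', h2, h3⟩ := upper2 K n s D (range (n.choose 2 + 1)) h
    (fun G _ => hD G (Set.mem_univ _)) (fun hdr => by
      have h4 := drops_range hdr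
      have e1 : (K + 1 + 1) * 2 ^ h = (K + 1) * 2 ^ h + 2 ^ h := by ring
      omega)
  refine ⟨s', hs'.trans ?_, D', h2, ?_⟩
  · rw [← hK]
    have h4 : 2 * K + 30 ≤ 2 ^ (K + 5) := by
      have h5 : K < 2 ^ K := Nat.lt_two_pow_self
      have h6 : 2 ^ (K + 5) = 32 * 2 ^ K := by ring
      omega
    have h5 : ∀ e, 2 ^ e ≤ (n + s) ^ e := fun e => Nat.pow_le_pow_left (by omega) e
    calc (2 * K + 30) * 2 ^ (K + 3) * (n + s) ^ (2 * K + 6)
        ≤ (n + s) ^ (K + 5) * (n + s) ^ (K + 3) * (n + s) ^ (2 * K + 6) :=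
          Nat.mul_le_mul_right _ (Nat.mul_le_mul (h4.trans (h5 _)) (h5 _))
      _ = (n + s) ^ (K + 5 + (K + 3) + (2 * K + 6)) := by rw [← pow_add, ← pow_add]
      _ ≤ _ := Nat.pow_le_pow_right (by omega) (by omega)
  · rw [correctOn_iff] at h3 ⊢
    intro x _
    exact h3 x (mem_coe.2 (mem_range.2 (Nat.lt_succ_of_le (wt_le_choose x))))

end Pool.Agent.SliceCircuits
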